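import Pool.Agent.Shared.PolyTime.Raw

/-!
Typed polynomial time: `PT f` for the bit encodings of the Prelude.  `PT f` implies the Prelude
predicate `IsPolyTime f`.  The closure lemmas are tagged for `fun_prop`.
-/

namespace Pool.Agent.Shared.PolyTime

open Function N487b59b3

/-- Length of the encoding. -/
def sz {α : Type} [N487b59b3 α] (a : α) : ℕ := (bitEncode a).length

/-- `f` is computed in polynomial time by a stack program. -/
@[fun_prop] def PT {α β : Type} [N487b59b3 α] [N487b59b3 β] (f : α → β) : Prop :=
  RP bitEncode (fun a => bitEncode (f a))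

/-- `g a` is bounded by a polynomial in the length of the encoding of `a`. -/
@[fun_prop] def PB {α : Type} [N487b59b3 α] (g : α → ℕ) : Prop := PBe bitEncode g

/-- Options are encoded as lists of length at most one. -/
instance encOption {α : Type} [N487b59b3 α] : N487b59b3 (Option α) :=
  ofLeftInverse Option.toList (fun l => some l.head?) (fun o => by cases o <;> rfl)

variable {α β γ δ σ : Type} [N487b59b3 α] [N487b59b3 β] [N487b59b3 γ] [N487b59b3 δ] [N487b59b3 σ]

theorem PT.isPolyTime {f : α → β} (h : PT f) : N68a2faeb.IsPolyTime f := RP.toTM2 h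

theorem enc_pair (a : α) (b : β) : bitEncode (a, b) = delimit (bitEncode a) ++ bitEncode b := rfl
theorem enc_nil : bitEncode ([] : List α) = [] := rfl
theorem enc_cons (a : α) (l : List α) :
    bitEncode (a :: l) = delimit (bitEncode a) ++ bitEncode l := rfl
theorem enc_bool (b : Bool) : bitEncode b = [b] := rfl
theorem enc_option (o : Option α) : bitEncode o = bitEncode o.toList := rfl
theorem enc_listBool (l : List Bool) : bitEncode l = l.flatMap (fun b => [true, b, false]) := by
  induction l with
  | nil => rfl
  | cons b l ih => rw [enc_cons, ih]; rfl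

@[simp] theorem sz_pair (a : α) (b : β) : sz (a, b) = 2 * sz a + 1 + sz b := by
  simp [sz, enc_pair]
theorem sz_prod (p : α × β) : sz p = 2 * sz p.1 + 1 + sz p.2 := sz_pair p.1 p.2
@[simp] theorem sz_nil : sz ([] : List α) = 0 := rfl
@[simp] theorem sz_cons (a : α) (l : List α) : sz (a :: l) = 2 * sz a + 1 + sz l := by
  simp [sz, enc_cons]
@[simp] theorem sz_bool (b : Bool) : sz b = 1 := rfl
@[simp] theorem sz_none : sz (none : Option α) = 0 := rfl
@[simp] theorem sz_some (a : α) : sz (some a) = 2 * sz a + 1 := by
  simp [sz, enc_option, enc_cons, enc_nil]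
@[simp] theorem sz_append (l₁ l₂ : List α) : sz (l₁ ++ l₂) = sz l₁ + sz l₂ := by
  induction l₁ with
  | nil => simp
  | cons a l ih => simp [ih]; omega
@[simp] theorem sz_reverse (l : List α) : sz l.reverse = sz l := by
  induction l with
  | nil => simp
  | cons a l ih => simp [ih]; omega
theorem length_le_sz (l : List α) : l.length ≤ sz l := by
  induction l with
  | nil => simp
  | cons a l ih => simp; omega
theorem sz_mem {a : α} {l : List α} (h : a ∈ l) : 2 * sz a + 1 ≤ sz l := by
  induction l with
  | nil => simp at h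
  | cons b l ih =>
    rcases List.mem_cons.1 h with rfl | h
    · simp
    · have := ih h; simp; omega
theorem sz_sublist {l₁ l₂ : List α} (h : l₁.Sublist l₂) : sz l₁ ≤ sz l₂ := by
  induction h with
  | slnil => simp
  | cons a _ ih => simp; omega
  | cons_cons a _ ih => simp; omega
theorem sz_list_le {l : List α} {B : ℕ} (h : ∀ a ∈ l, sz a ≤ B) :
    sz l ≤ l.length * (2 * B + 1) := by
  induction l with
  | nil => simp
  | cons b l ih =>
    have h1 := h b (by simp)
    have h2 := ih fun a ha => h a (by simp [ha])
    simp only [sz_cons, List.length_cons]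
    nlinarith
theorem sz_listBool (l : List Bool) : sz l = 3 * l.length := by
  induction l with
  | nil => simp
  | cons a l ih => simp [ih]; omega

namespace PB

@[fun_prop] theorem const (c : ℕ) : PB (fun _ : α => c) := PBe.const c
theorem mono {f g : α → ℕ} (h : PB g) (hle : ∀ a, f a ≤ g a) : PB f := PBe.mono h hle
@[fun_prop] theorem add {f g : α → ℕ} (hf : PB f) (hg : PB g) : PB (fun a => f a + g a) :=
  PBe.add hf hg
@[fun_prop] theorem mul {f g : α → ℕ} (hf : PB f) (hg : PB g) : PB (fun a => f a * g a) :=
  PBe.mul hf hg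
@[fun_prop] theorem pow {f : α → ℕ} (hf : PB f) (k : ℕ) : PB (fun a => f a ^ k) := by
  induction k with
  | zero => simpa using const 1
  | succ k ih => simpa [pow_succ] using ih.mul hf
@[fun_prop] theorem sz {f : α → β} (hf : PT f) : PB (fun a => sz (f a)) := RP.length hf
@[fun_prop] theorem length {f : α → List β} (hf : PT f) : PB (fun a => (f a).length) :=
  (sz hf).mono fun _ => length_le_sz _
@[fun_prop] theorem succ {f : α → ℕ} (hf : PB f) : PB (fun a => (f a).succ) := hf.add (const 1)
@[fun_prop] theorem sub {f : α → ℕ} (hf : PB f) (g : α → ℕ) : PB (fun a => f a - g a) :=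
  hf.mono fun _ => Nat.sub_le _ _
@[fun_prop] theorem max {f g : α → ℕ} (hf : PB f) (hg : PB g) : PB (fun a => max (f a) (g a)) :=
  (hf.add hg).mono fun _ => by omega
theorem min_left {f : α → ℕ} (hf : PB f) (g : α → ℕ) : PB (fun a => min (f a) (g a)) :=
  hf.mono fun _ => by omega
@[fun_prop] theorem min_right {g : α → ℕ} (hg : PB g) (f : α → ℕ) :
    PB (fun a => min (f a) (g a)) :=
  hg.mono fun _ => by omega
theorem comp {g : β → ℕ} (hg : PB g) {f : α → β} (hf : PT f) : PB (fun a => g (f a)) :=
  PBe.comp hg (RP.length hf)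

end PB

namespace PT

@[fun_prop] theorem id' : PT (fun a : α => a) := RP.refl
@[fun_prop] theorem const (b : β) : PT (fun _ : α => b) := RP.const _
@[fun_prop] theorem comp' {g : β → γ} {f : α → β} (hg : PT g) (hf : PT f) :
    PT (fun a => g (f a)) := RP.comp hg hf
theorem comp {g : β → γ} {f : α → β} (hg : PT g) (hf : PT f) : PT (g ∘ f) := hg.comp' hf

theorem of_eq {f g : α → β} (h : PT f) (e : ∀ a, f a = g a) : PT g := (funext e : f = g) ▸ h

/-- Change of the output type along equal encodings. -/
theorem of_enc {g : α → γ} {f : α → β} (h : PT g) (e : ∀ a, bitEncode (g a) = bitEncode (f a)) :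
    PT f := RP.congr h e

@[fun_prop] theorem pair {f : α → β} {g : α → γ} (hf : PT f) (hg : PT g) :
    PT (fun a => (f a, g a)) := RP.pair hf hg
@[fun_prop] theorem fst {f : α → β × γ} (hf : PT f) : PT (fun a => (f a).1) :=
  (RP.fstR.post hf).congr fun a => by rw [← fstR_delimit (bitEncode (f a).1) (bitEncode (f a).2)]; rfl
@[fun_prop] theorem snd {f : α → β × γ} (hf : PT f) : PT (fun a => (f a).2) :=
  (RP.sndR.post hf).congr fun a => by rw [← sndR_delimit (bitEncode (f a).1) (bitEncode (f a).2)]; rfl

theorem rsel {c : α → Bool} (hc : PT c) {F G : α → List Bool} (hF : RP bitEncode F)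
    (hG : RP bitEncode G) : RP bitEncode (fun a => cond (c a) (F a) (G a)) :=
  RP.comp RP.sel (f := fun a => (c a, F a, G a)) (RP.pair hc (RP.pair hF hG))

@[fun_prop] theorem cond {c : α → Bool} {f g : α → β} (hc : PT c) (hf : PT f) (hg : PT g) :
    PT (fun a => cond (c a) (f a) (g a)) :=
  (rsel hc hf hg).congr fun a => by beta_reduce; cases c a <;> rfl

@[fun_prop] theorem cons {f : α → β} {g : α → List β} (hf : PT f) (hg : PT g) :
    PT (fun a => f a :: g a) := RP.pair hf hg

@[fun_prop] theorem isEmpty {f : α → List β} (hf : PT f) : PT (fun a => (f a).isEmpty) :=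
  (RP.isEmpty.post hf).congr fun a => by
    beta_reduce
    rcases f a with _ | ⟨x, l⟩
    · rfl
    · rw [enc_cons]; cases h : bitEncode x <;> rfl

@[fun_prop] theorem tail {f : α → List β} (hf : PT f) : PT (fun a => (f a).tail) :=
  (RP.sndR.post hf).congr fun a => by
    beta_reduce
    rcases f a with _ | ⟨x, l⟩
    · rfl
    · rw [enc_cons, sndR_delimit]; rfl

@[fun_prop] theorem headD {f : α → List β} {g : α → β} (hf : PT f) (hg : PT g) :
    PT (fun a => (f a).headD (g a)) :=
  (rsel hf.isEmpty hg (RP.fstR.post hf)).congr fun a => by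
    beta_reduce
    rcases f a with _ | ⟨x, l⟩
    · rfl
    · rw [enc_cons, fstR_delimit]; rfl

@[fun_prop] theorem bitEncode {f : α → β} (hf : PT f) : PT (fun a => bitEncode (f a)) :=
  (RP.toBits.post hf).congr fun _ => (enc_listBool _).symm

theorem raw {h : α → List Bool} (hh : PT h) : RP N487b59b3.bitEncode h :=
  RP.comp RP.ofBits (f := h) (RP.congr hh fun _ => enc_listBool _)

/-- A function whose encoding is computed as a list of booleans. -/
theorem of_bits {h : α → List Bool} {f : α → β} (hh : PT h)
    (e : ∀ a, h a = N487b59b3.bitEncode (f a)) : PT f := hh.raw.congr e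

@[fun_prop] theorem not {f : α → Bool} (hf : PT f) : PT (fun a => !(f a)) :=
  (hf.cond (const false) (const true)).of_eq fun a => by cases f a <;> rfl
@[fun_prop] theorem and {f g : α → Bool} (hf : PT f) (hg : PT g) : PT (fun a => f a && g a) :=
  (hf.cond hg (const false)).of_eq fun a => by cases f a <;> rfl
@[fun_prop] theorem or {f g : α → Bool} (hf : PT f) (hg : PT g) : PT (fun a => f a || g a) :=
  (hf.cond (const true) hg).of_eq fun a => by cases f a <;> rfl
@[fun_prop] theorem xor {f g : α → Bool} (hf : PT f) (hg : PT g) :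
    PT (fun a => xor (f a) (g a)) :=
  (hf.cond hg.not hg).of_eq fun a => by cases f a <;> simp

end PT

/-- Case analysis on a list. -/
def lcase {β γ : Type} (l : List β) (g : γ) (h : β → List β → γ) : γ :=
  match l with
  | [] => g
  | x :: xs => h x xs

@[simp] theorem lcase_nil {β γ : Type} (g : γ) (h : β → List β → γ) : lcase [] g h = g := rfl
@[simp] theorem lcase_cons {β γ : Type} (x : β) (xs : List β) (g : γ) (h : β → List β → γ) :
    lcase (x :: xs) g h = h x xs := rfl

namespace PT

@[fun_prop] theorem lcase {l : α → List β} {g : α → γ} {h : α → β → List β → γ} (hl : PT l)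
    (hg : PT g) (hh : PT (fun p : α × β × List β => h p.1 p.2.1 p.2.2)) :
    PT (fun a => lcase (l a) (g a) (h a)) := by
  by_cases hβ : Nonempty β
  · obtain ⟨d⟩ := hβ
    refine (hl.isEmpty.cond hg (hh.comp' (id'.pair ((hl.headD (const d)).pair hl.tail)))).of_eq
      fun a => ?_
    rcases l a with _ | ⟨x, xs⟩ <;> rfl
  · refine hg.of_eq fun a => ?_
    rcases l a with _ | ⟨x, xs⟩
    · rfl
    · exact absurd ⟨x⟩ hβ

@[fun_prop] theorem some {f : α → β} (hf : PT f) : PT (fun a => some (f a)) :=
  (hf.cons (const [])).of_enc fun _ => rfl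
@[fun_prop] theorem toList {f : α → Option β} (hf : PT f) : PT (fun a => (f a).toList) :=
  hf.of_enc fun _ => rfl
@[fun_prop] theorem elim {o : α → Option β} {g : α → γ} {h : α → β → γ} (ho : PT o)
    (hg : PT g) (hh : PT (fun p : α × β => h p.1 p.2)) :
    PT (fun a => (o a).elim (g a) (h a)) := by
  have : PT (fun a => PolyTime.lcase (o a).toList (g a) (fun x _ => h a x)) :=
    lcase ho.toList hg (hh.comp' (id'.fst.pair id'.snd.fst))
  exact this.of_eq fun a => by cases o a <;> rfl
@[fun_prop] theorem head? {f : α → List β} (hf : PT f) : PT (fun a => (f a).head?) := by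
  have : PT (fun a => PolyTime.lcase (f a) none (fun x _ => Option.some x)) := by fun_prop
  exact this.of_eq fun a => by cases f a <;> rfl
@[fun_prop] theorem isSome {f : α → Option β} (hf : PT f) : PT (fun a => (f a).isSome) :=
  hf.toList.isEmpty.not.of_eq fun a => by cases f a <;> rfl
@[fun_prop] theorem isNone {f : α → Option β} (hf : PT f) : PT (fun a => (f a).isNone) :=
  hf.toList.isEmpty.of_eq fun a => by cases f a <;> rfl
@[fun_prop] theorem getD {f : α → Option β} {g : α → β} (hf : PT f) (hg : PT g) :
    PT (fun a => (f a).getD (g a)) :=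
  (hf.toList.headD hg).of_eq fun a => by cases f a <;> rfl
@[fun_prop] theorem omap {o : α → Option β} {h : α → β → γ} (ho : PT o)
    (hh : PT (fun p : α × β => h p.1 p.2)) : PT (fun a => (o a).map (h a)) := by
  have : PT (fun a => (o a).elim none (fun x => Option.some (h a x))) := elim ho (const _) hh.some
  exact this.of_eq fun a => by cases o a <;> rfl
@[fun_prop] theorem obind {o : α → Option β} {h : α → β → Option γ} (ho : PT o)
    (hh : PT (fun p : α × β => h p.1 p.2)) : PT (fun a => (o a).bind (h a)) := by
  have : PT (fun a => (o a).elim none (h a)) := elim ho (const _) hh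
  exact this.of_eq fun a => by cases o a <;> rfl
@[fun_prop] theorem oor {f g : α → Option β} (hf : PT f) (hg : PT g) :
    PT (fun a => (f a).or (g a)) :=
  (hf.isSome.cond hf hg).of_eq fun a => by cases f a <;> simp

/-- Iteration with a list of booleans as a unary counter. -/
theorem iterBits {f : σ → σ} (hf : PT f) {c : α → List Bool} (hc : PT c) {s0 : α → σ}
    (hs : PT s0) {B : α → ℕ} (hB : PB B)
    (hb : ∀ a, ∀ i ≤ (c a).length, sz (f^[i] (s0 a)) ≤ B a) :
    PT (fun a => f^[(c a).length] (s0 a)) :=
  RP.iter hf hc.raw hs hB hb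

omit [N487b59b3 α] [N487b59b3 β] [N487b59b3 σ] in
theorem foldl_aux (f : α → σ → β → σ) (a : α) (i : ℕ) : ∀ (l : List β) (s : σ),
    (fun p : α × List β × σ => PolyTime.lcase p.2.1 p (fun x xs => (p.1, xs, f p.1 p.2.2 x)))^[i]
      (a, l, s) = (a, l.drop i, (l.take i).foldl (f a) s) := by
  induction i with
  | zero => intro l s; simp
  | succ i ih =>
    intro l s
    rw [iterate_succ_apply]
    cases l with
    | nil => simpa using ih [] s
    | cons x xs => simpa using ih xs (f a s x)

/-- Left fold, given a polynomial bound on the size of the intermediate states. -/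
theorem foldl {f : α → σ → β → σ} {l : α → List β} {s0 : α → σ}
    (hf : PT (fun p : α × σ × β => f p.1 p.2.1 p.2.2)) (hl : PT l) (hs : PT s0)
    {B : α → ℕ} (hB : PB B) (hb : ∀ a i, sz (((l a).take i).foldl (f a) (s0 a)) ≤ B a) :
    PT (fun a => (l a).foldl (f a) (s0 a)) := by
  have hF : PT (fun p : α × List β × σ =>
      PolyTime.lcase p.2.1 p (fun x xs => (p.1, xs, f p.1 p.2.2 x))) := by
    refine lcase (by fun_prop) (by fun_prop) ?_
    refine pair (by fun_prop) (pair (by fun_prop) ?_)
    exact hf.comp' (f := fun p : (α × List β × σ) × β × List β => (p.1.1, p.1.2.2, p.2.1))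
      (by fun_prop)
  have := iterBits hF hl.bitEncode (s0 := fun a => (a, l a, s0 a)) (by fun_prop)
    (B := fun a => 2 * sz a + 1 + (2 * sz (l a) + 1 + B a)) (by fun_prop) (by
      intro a i _
      rw [foldl_aux]
      have h1 := hb a i
      have h2 := sz_sublist (List.drop_sublist i (l a))
      simp only [sz_pair]
      omega)
  refine this.snd.snd.of_eq fun a => ?_
  rw [foldl_aux]
  simp only
  rw [List.take_of_length_le (i := (N487b59b3.bitEncode (l a)).length) (length_le_sz (l a))]

/-- Left fold with an invariant that bounds the size of the state. -/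
theorem foldl_inv {f : α → σ → β → σ} {l : α → List β} {s0 : α → σ}
    (hf : PT (fun p : α × σ × β => f p.1 p.2.1 p.2.2)) (hl : PT l) (hs : PT s0)
    (I : α → σ → Prop) (h0 : ∀ a, I a (s0 a)) (hI : ∀ a s, ∀ x ∈ l a, I a s → I a (f a s x))
    {B : α → ℕ} (hB : PB B) (hb : ∀ a s, I a s → sz s ≤ B a) :
    PT (fun a => (l a).foldl (f a) (s0 a)) := by
  refine foldl hf hl hs hB fun a i => hb a _ ?_
  have : ∀ (m : List β) (s : σ), (∀ x ∈ m, x ∈ l a) → I a s → I a (m.foldl (f a) s) := by
    intro m
    induction m with
    | nil => intro s _ h; exact h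
    | cons x m ih =>
      intro s hm h
      exact ih _ (fun y hy => hm y (by simp [hy])) (hI a s x (hm x (by simp)) h)
  exact this _ _ (fun x hx => List.mem_of_mem_take hx) (h0 a)

/-- Left fold in which each round adds at most a polynomial amount to the size of the state. -/
theorem foldl_grow {f : α → σ → β → σ} {l : α → List β} {s0 : α → σ}
    (hf : PT (fun p : α × σ × β => f p.1 p.2.1 p.2.2)) (hl : PT l) (hs : PT s0)
    {g : α → ℕ} (hg : PB g) (hb : ∀ a s, ∀ x ∈ l a, sz (f a s x) ≤ sz s + g a) :
    PT (fun a => (l a).foldl (f a) (s0 a)) := by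
  refine foldl hf hl hs (B := fun a => sz (s0 a) + (l a).length * g a) (by fun_prop) fun a i => ?_
  have : ∀ (m : List β) (s : σ), (∀ x ∈ m, x ∈ l a) →
      sz (m.foldl (f a) s) ≤ sz s + m.length * g a := by
    intro m
    induction m with
    | nil => intro s _; simp
    | cons x m ih =>
      intro s hm
      have h1 := ih (f a s x) (fun y hy => hm y (by simp [hy]))
      have h2 := hb a s x (hm x (by simp))
      simp only [List.foldl_cons, List.length_cons]
      nlinarith
  refine (this _ _ (fun x hx => List.mem_of_mem_take hx)).trans ?_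
  have : ((l a).take i).length ≤ (l a).length := by simp
  nlinarith

/-- A uniform polynomial bound for the values of `h a x` over the members `x` of `l a`. -/
theorem bound_mem {h : α → β → γ} {l : α → List β} (hh : PT (fun p : α × β => h p.1 p.2))
    (hl : PT l) : ∃ g : α → ℕ, PB g ∧ ∀ a, ∀ x ∈ l a, sz (h a x) ≤ g a := by
  obtain ⟨q, hq⟩ := PB.sz hh
  have : PB (fun a => 2 * sz a + 1 + sz (l a)) := by fun_prop
  refine ⟨_, PBe.eval this q, fun a x hx => (hq (a, x)).trans (eval_mono q ?_)⟩
  have h1 := sz_mem hx
  have h2 := sz_pair a x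
  unfold sz at *
  omega

@[fun_prop] theorem reverse {l : α → List β} (hl : PT l) : PT (fun a => (l a).reverse) := by
  obtain ⟨g, hg, hb⟩ := bound_mem (h := fun _ x => x) (by fun_prop) hl
  have := foldl_grow (f := fun _ (s : List β) x => x :: s) (s0 := fun _ => []) (by fun_prop) hl
    (by fun_prop) (g := fun a => 2 * g a + 1) (by fun_prop)
    (fun a s x hx => by have := hb a x hx; simp; omega)
  exact this.of_eq fun a => by simp

@[fun_prop] theorem append {l₁ l₂ : α → List β} (h₁ : PT l₁) (h₂ : PT l₂) :
    PT (fun a => l₁ a ++ l₂ a) := by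
  obtain ⟨g, hg, hb⟩ := bound_mem (h := fun _ x => x) (by fun_prop) h₁.reverse
  have := foldl_grow (f := fun _ (s : List β) x => x :: s) (by fun_prop) h₁.reverse h₂
    (g := fun a => 2 * g a + 1) (by fun_prop)
    (fun a s x hx => by have := hb a x hx; simp; omega)
  exact this.of_eq fun a => by simp

@[fun_prop] theorem flatMap {l : α → List β} {h : α → β → List γ} (hl : PT l)
    (hh : PT (fun p : α × β => h p.1 p.2)) : PT (fun a => (l a).flatMap (h a)) := by
  obtain ⟨g, hg, hb⟩ := bound_mem hh hl
  have := foldl_grow (f := fun a (s : List γ) x => s ++ h a x) (s0 := fun _ => [])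
    (append (by fun_prop) (hh.comp' (f := fun p : α × List γ × β => (p.1, p.2.2)) (by fun_prop)))
    hl (by fun_prop) hg (fun a s x hx => by have := hb a x hx; simp; omega)
  refine this.of_eq fun a => ?_
  have : ∀ (m : List β) (s : List γ), m.foldl (fun s x => s ++ h a x) s = s ++ m.flatMap (h a) := by
    intro m
    induction m with
    | nil => simp
    | cons x m ih => intro s; simp [ih]
  simpa using this (l a) []

@[fun_prop] theorem map {l : α → List β} {h : α → β → γ} (hl : PT l)
    (hh : PT (fun p : α × β => h p.1 p.2)) : PT (fun a => (l a).map (h a)) :=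
  (flatMap (h := fun a x => [h a x]) hl (hh.cons (const []))).of_eq fun a => by
    simp [List.map_eq_flatMap]

@[fun_prop] theorem filterMap {l : α → List β} {h : α → β → Option γ} (hl : PT l)
    (hh : PT (fun p : α × β => h p.1 p.2)) : PT (fun a => (l a).filterMap (h a)) :=
  (flatMap (h := fun a x => (h a x).toList) hl hh.toList).of_eq fun a => by
    simp [List.filterMap_eq_flatMap_toList]

@[fun_prop] theorem filter {l : α → List β} {h : α → β → Bool} (hl : PT l)
    (hh : PT (fun p : α × β => h p.1 p.2)) : PT (fun a => (l a).filter (h a)) :=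
  (flatMap (h := fun a x => _root_.cond (h a x) [x] []) hl (hh.cond (by fun_prop) (by fun_prop))).of_eq
    fun a => by
      induction l a with
      | nil => rfl
      | cons x m ih => cases hx : h a x <;> simp [hx, ih]

@[fun_prop] theorem flatten {l : α → List (List β)} (hl : PT l) : PT (fun a => (l a).flatten) :=
  (flatMap (h := fun _ x => x) hl (by fun_prop)).of_eq fun a => by simp

@[fun_prop] theorem any {l : α → List β} {h : α → β → Bool} (hl : PT l)
    (hh : PT (fun p : α × β => h p.1 p.2)) : PT (fun a => (l a).any (h a)) :=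
  (filter hl hh).isEmpty.not.of_eq fun a => by
    induction l a with
    | nil => rfl
    | cons x m ih => cases hx : h a x <;> simp_all

@[fun_prop] theorem all {l : α → List β} {h : α → β → Bool} (hl : PT l)
    (hh : PT (fun p : α × β => h p.1 p.2)) : PT (fun a => (l a).all (h a)) :=
  (any (h := fun a x => !h a x) hl hh.not).not.of_eq fun a => by
    induction l a with
    | nil => rfl
    | cons x m ih => cases hx : h a x <;> simp_all

@[fun_prop] theorem find? {l : α → List β} {h : α → β → Bool} (hl : PT l)
    (hh : PT (fun p : α × β => h p.1 p.2)) : PT (fun a => (l a).find? (h a)) :=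
  (filter hl hh).head?.of_eq fun a => by simp

@[fun_prop] theorem findSome? {l : α → List β} {h : α → β → Option γ} (hl : PT l)
    (hh : PT (fun p : α × β => h p.1 p.2)) : PT (fun a => (l a).findSome? (h a)) :=
  (filterMap hl hh).head?.of_eq fun a => by simp

end PT

end Pool.Agent.Shared.PolyTime
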