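import Pool.Agent.Shared.PolyTime.Nat

/-!
More list functions and arithmetic in polynomial time.
-/

namespace Pool.Agent.Shared.PolyTime

open Function N487b59b3

variable {α β γ δ σ : Type} [N487b59b3 α] [N487b59b3 β] [N487b59b3 γ] [N487b59b3 δ] [N487b59b3 σ]

namespace PT

@[fun_prop] theorem toNat {f : α → Bool} (hf : PT f) : PT (fun a => (f a).toNat) :=
  (hf.cond (const 1) (const 0)).of_eq fun a => by cases f a <;> rfl

@[fun_prop] theorem ble {f g : α → ℕ} (hf : PT f) (hg : PT g) : PT (fun a => (f a).ble (g a)) :=
  (decide_le (inst := fun _ => inferInstance) hf hg).of_eq fun a => by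
    rw [Bool.eq_iff_iff]; simp

@[fun_prop] theorem blt {f g : α → ℕ} (hf : PT f) (hg : PT g) : PT (fun a => (f a).blt (g a)) :=
  (decide_lt (inst := fun _ => inferInstance) hf hg).of_eq fun a => by
    rw [Bool.eq_iff_iff]; simp

@[fun_prop] theorem swap {f : α → β × γ} (hf : PT f) : PT (fun a => (f a).swap) :=
  hf.snd.pair hf.fst

@[fun_prop] theorem decide_mem {x : α → β} {l : α → List β} {inst : ∀ a, Decidable (x a ∈ l a)}
    (hx : PT x) (hl : PT l) : PT (fun a => @decide (x a ∈ l a) (inst a)) := by
  classical
  exact (any (h := fun a y => decide (x a = y)) hl (by fun_prop)).of_eq fun a => by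
    rw [Bool.eq_iff_iff]; simp

@[fun_prop] theorem contains [BEq β] [LawfulBEq β] {x : α → β} {l : α → List β}
    (hx : PT x) (hl : PT l) : PT (fun a => (l a).contains (x a)) := by
  classical
  exact (decide_mem (inst := fun _ => inferInstance) hx hl).of_eq fun a => by simp

@[fun_prop] theorem elem [BEq β] [LawfulBEq β] {x : α → β} {l : α → List β}
    (hx : PT x) (hl : PT l) : PT (fun a => (l a).elem (x a)) := contains hx hl

@[fun_prop] theorem countP {l : α → List β} {h : α → β → Bool} (hl : PT l)
    (hh : PT (fun p : α × β => h p.1 p.2)) : PT (fun a => (l a).countP (h a)) :=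
  (filter hl hh).length.of_eq fun a => by rw [List.countP_eq_length_filter]

@[fun_prop] theorem count [BEq β] [LawfulBEq β] {x : α → β} {l : α → List β}
    (hx : PT x) (hl : PT l) : PT (fun a => (l a).count (x a)) :=
  countP (h := fun a y => y == x a) hl (by fun_prop)

@[fun_prop] theorem product {l₁ : α → List β} {l₂ : α → List γ} (h₁ : PT l₁) (h₂ : PT l₂) :
    PT (fun a => (l₁ a).product (l₂ a)) :=
  flatMap (h := fun a x => (l₂ a).map (Prod.mk x)) h₁
    (map (h := fun (p : α × β) y => (p.2, y)) (by fun_prop) (by fun_prop))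

/-- Right fold with bounded growth. -/
theorem foldr_grow {f : α → β → σ → σ} {l : α → List β} {s0 : α → σ}
    (hf : PT (fun p : α × β × σ => f p.1 p.2.1 p.2.2)) (hl : PT l) (hs : PT s0)
    {g : α → ℕ} (hg : PB g) (hb : ∀ a s, ∀ x ∈ l a, PolyTime.sz (f a x s) ≤ PolyTime.sz s + g a) :
    PT (fun a => (l a).foldr (f a) (s0 a)) :=
  (foldl_grow (f := fun a s x => f a x s)
    (hf.comp' (f := fun p : α × σ × β => (p.1, p.2.2, p.2.1)) (by fun_prop)) hl.reverse hs hg
    (fun a s x hx => hb a s x (by simpa using hx))).of_eq fun a => by simp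

/-- Right fold with an invariant that bounds the size of the state. -/
theorem foldr_inv {f : α → β → σ → σ} {l : α → List β} {s0 : α → σ}
    (hf : PT (fun p : α × β × σ => f p.1 p.2.1 p.2.2)) (hl : PT l) (hs : PT s0)
    (I : α → σ → Prop) (h0 : ∀ a, I a (s0 a)) (hI : ∀ a s, ∀ x ∈ l a, I a s → I a (f a x s))
    {B : α → ℕ} (hB : PB B) (hb : ∀ a s, I a s → PolyTime.sz s ≤ B a) :
    PT (fun a => (l a).foldr (f a) (s0 a)) :=
  (foldl_inv (f := fun a s x => f a x s)
    (hf.comp' (f := fun p : α × σ × β => (p.1, p.2.2, p.2.1)) (by fun_prop)) hl.reverse hs I h0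
    (fun a s x hx => hI a s x (by simpa using hx)) hB hb).of_eq fun a => by simp

@[fun_prop] theorem zip {l₁ : α → List β} {l₂ : α → List γ} (h₁ : PT l₁) (h₂ : PT l₂) :
    PT (fun a => (l₁ a).zip (l₂ a)) := by
  have key : ∀ (m : List β) (r : List γ) (o : List (β × γ)),
      (m.foldl (fun (s : List γ × List (β × γ)) x =>
        PolyTime.lcase s.1 s (fun y ys => (ys, s.2 ++ [(x, y)]))) (r, o)).2 = o ++ m.zip r := by
    intro m
    induction m with
    | nil => simp
    | cons x m ih =>
      intro r o
      cases r with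
      | nil => simpa using ih [] o
      | cons y ys => simp [ih]
  have := foldl_grow (f := fun _ (s : List γ × List (β × γ)) x =>
      PolyTime.lcase s.1 s (fun y ys => (ys, s.2 ++ [(x, y)]))) (s0 := fun a => (l₂ a, []))
    (by fun_prop) h₁ (by fun_prop) (g := fun a => 2 * PolyTime.sz (l₁ a) + 3) (by fun_prop)
    (fun a s x hx => by
      have := sz_mem hx
      rcases s with ⟨_ | ⟨y, ys⟩, o⟩ <;> simp; omega)
  exact this.snd.of_eq fun a => by rw [key]; simp

@[fun_prop] theorem zipIdx {l : α → List β} (hl : PT l) : PT (fun a => (l a).zipIdx) :=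
  (hl.zip hl.range_length).of_eq fun a => by
    rw [List.zipIdx_eq_zip_range', List.range_eq_range']

@[fun_prop] theorem drop {n : α → ℕ} {l : α → List β} (hn : PT n) (hl : PT l) :
    PT (fun a => (l a).drop (n a)) := by
  have h1 : PT (fun a => Min.min (n a) (l a).length) := by fun_prop
  have key : ∀ (i : ℕ) (m : List β), List.tail^[i] m = m.drop i := by
    intro i
    induction i with
    | zero => simp
    | succ i ih => intro m; rw [iterate_succ_apply, ih]; simp
  have := iterate_grow (f := fun _ (s : List β) => s.tail) (by fun_prop) h1 (by fun_prop) hl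
    (g := fun _ => 0) (by fun_prop) (fun a s => by simpa using sz_sublist (List.tail_sublist s))
  refine this.of_eq fun a => ?_
  rw [key]
  rcases le_total (n a) (l a).length with h | h
  · rw [min_eq_left h]
  · rw [min_eq_right h, List.drop_length, List.drop_of_length_le h]

@[fun_prop] theorem take {n : α → ℕ} {l : α → List β} (hn : PT n) (hl : PT l) :
    PT (fun a => (l a).take (n a)) :=
  (drop (hl.length.sub hn) hl.reverse).reverse.of_eq fun a => by
    rw [List.drop_reverse]
    rcases le_total (n a) (l a).length with h | h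
    · simp [Nat.sub_sub_self h]
    · simp [Nat.sub_eq_zero_of_le h, List.take_of_length_le h]

@[fun_prop] theorem getElem? {n : α → ℕ} {l : α → List β} (hn : PT n) (hl : PT l) :
    PT (fun a => (l a)[n a]?) :=
  (drop hn hl).head?.of_eq fun a => by simp

@[fun_prop] theorem lgetD {n : α → ℕ} {l : α → List β} {d : α → β} (hn : PT n) (hl : PT l)
    (hd : PT d) : PT (fun a => (l a).getD (n a) (d a)) :=
  ((getElem? hn hl).getD hd).of_eq fun a => by simp

@[fun_prop] theorem getLast? {l : α → List β} (hl : PT l) : PT (fun a => (l a).getLast?) :=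
  hl.reverse.head?.of_eq fun a => by simp

@[fun_prop] theorem dropLast {l : α → List β} (hl : PT l) : PT (fun a => (l a).dropLast) :=
  hl.reverse.tail.reverse.of_eq fun a => by simp

@[fun_prop] theorem set {n : α → ℕ} {l : α → List β} {x : α → β} (hn : PT n) (hl : PT l)
    (hx : PT x) : PT (fun a => (l a).set (n a) (x a)) := by
  have : PT (fun a => if n a < (l a).length then (l a).take (n a) ++ x a :: (l a).drop (n a + 1)
      else l a) := by fun_prop
  exact this.of_eq fun a => by rw [List.set_eq_take_append_cons_drop]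

@[fun_prop] theorem lookup [BEq β] [LawfulBEq β] {x : α → β} {l : α → List (β × γ)}
    (hx : PT x) (hl : PT l) : PT (fun a => (l a).lookup (x a)) := by
  have : PT (fun a => ((l a).find? (fun p => x a == p.1)).map (fun p => p.2)) := by fun_prop
  exact this.of_eq fun a => by
    induction l a with
    | nil => rfl
    | cons p m ih =>
      rcases p with ⟨k, v⟩
      cases h : x a == k <;> simp [List.lookup, List.find?, h, ih]

@[fun_prop] theorem findIdx {l : α → List β} {h : α → β → Bool} (hl : PT l)
    (hh : PT (fun p : α × β => h p.1 p.2)) : PT (fun a => (l a).findIdx (h a)) := by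
  have := foldr_grow (f := fun a x (s : ℕ) => _root_.cond (h a x) 0 (s + 1)) (s0 := fun _ => 0)
    (cond (hh.comp' (f := fun p : α × β × ℕ => (p.1, p.2.1)) (by fun_prop)) (by fun_prop)
      (by fun_prop)) hl (by fun_prop) (g := fun _ => 2) (by fun_prop)
    (fun a s x _ => by
      have h1 := sz_add_le s 1
      have h2 := sz_nat_le 1
      have h3 := sz_nat_le 0
      cases h a x <;> simp <;> omega)
  exact this.of_eq fun a => by
    induction l a with
    | nil => rfl
    | cons x m ih => simp [List.findIdx_cons, ih]

@[fun_prop] theorem idxOf [BEq β] [LawfulBEq β] {x : α → β} {l : α → List β}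
    (hx : PT x) (hl : PT l) : PT (fun a => (l a).idxOf (x a)) :=
  findIdx (h := fun a y => y == x a) hl (by fun_prop)

@[fun_prop] theorem takeWhile {l : α → List β} {h : α → β → Bool} (hl : PT l)
    (hh : PT (fun p : α × β => h p.1 p.2)) : PT (fun a => (l a).takeWhile (h a)) :=
  (take (findIdx (h := fun a x => !h a x) hl hh.not) hl).of_eq fun a => by
    induction l a with
    | nil => rfl
    | cons x m ih => cases hx : h a x <;> simp [List.findIdx_cons, hx, ih]

@[fun_prop] theorem dropWhile {l : α → List β} {h : α → β → Bool} (hl : PT l)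
    (hh : PT (fun p : α × β => h p.1 p.2)) : PT (fun a => (l a).dropWhile (h a)) :=
  (drop (findIdx (h := fun a x => !h a x) hl hh.not) hl).of_eq fun a => by
    induction l a with
    | nil => rfl
    | cons x m ih => cases hx : h a x <;> simp [List.findIdx_cons, hx, ih]

@[fun_prop] theorem dedup [DecidableEq β] {l : α → List β} (hl : PT l) :
    PT (fun a => (l a).dedup) := by
  obtain ⟨g, hg, hb⟩ := bound_mem (h := fun _ x => x) (by fun_prop) hl
  have := foldr_grow (f := fun _ x (s : List β) => if x ∈ s then s else x :: s)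
    (s0 := fun _ => []) (by fun_prop) hl (by fun_prop) (g := fun a => 2 * g a + 1) (by fun_prop)
    (fun a s x hx => by have := hb a x hx; split_ifs <;> simp; omega)
  exact this.of_eq fun a => by
    induction l a with
    | nil => rfl
    | cons x m ih =>
      rw [List.foldr_cons, ih]
      by_cases hx : x ∈ m <;> simp [hx]

@[fun_prop] theorem decide_nodup {l : α → List β} {inst : ∀ a, Decidable (l a).Nodup}
    (hl : PT l) : PT (fun a => @decide (l a).Nodup (inst a)) := by
  classical
  exact (decide_eq (inst := fun _ => inferInstance) hl.dedup hl).of_eq fun a => by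
    simp [List.dedup_eq_self]

@[fun_prop] theorem zipWith {l₁ : α → List β} {l₂ : α → List γ} {h : α → β → γ → δ}
    (h₁ : PT l₁) (h₂ : PT l₂) (hh : PT (fun p : α × β × γ => h p.1 p.2.1 p.2.2)) :
    PT (fun a => List.zipWith (h a) (l₁ a) (l₂ a)) :=
  (map (h := fun a p => h a p.1 p.2) (h₁.zip h₂) hh).of_eq fun a => by
    rw [List.zip, List.map_zipWith]

theorem divmod_aux (y : ℕ) (l : List Bool) :
    l.foldr (fun b (s : ℕ × ℕ) => if y ≤ s.2 + s.2 + b.toNat ∧ 0 < y
      then (s.1 + s.1 + 1, s.2 + s.2 + b.toNat - y) else (s.1 + s.1, s.2 + s.2 + b.toNat)) (0, 0) =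
      (PolyTime.val l / y, PolyTime.val l % y) := by
  induction l with
  | nil => simp [PolyTime.val]
  | cons b l ih =>
    rw [List.foldr_cons, ih]
    rcases Nat.eq_zero_or_pos y with rfl | hy
    · simp [PolyTime.val]; omega
    · have h1 := Nat.div_add_mod (PolyTime.val l) y
      have h2 := Nat.mod_lt (PolyTime.val l) hy
      have h3 : b.toNat ≤ 1 := by cases b <;> simp
      simp only [PolyTime.val]
      generalize PolyTime.val l / y = q at *
      generalize PolyTime.val l % y = r at *
      rw [← h1]
      split_ifs with h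
      · have e : b.toNat + 2 * (y * q + r) = (r + r + b.toNat - y) + y * (q + q + 1) := by
          have : y * (q + q + 1) = 2 * (y * q) + y := by ring
          omega
        rw [e, Nat.add_mul_div_left _ _ hy, Nat.add_mul_mod_self_left,
          Nat.div_eq_of_lt (by omega), Nat.mod_eq_of_lt (by omega)]
        simp
      · have e : b.toNat + 2 * (y * q + r) = (r + r + b.toNat) + y * (q + q) := by ring
        rw [e, Nat.add_mul_div_left _ _ hy, Nat.add_mul_mod_self_left,
          Nat.div_eq_of_lt (by omega), Nat.mod_eq_of_lt (by omega)]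
        simp

theorem divmod {f g : α → ℕ} (hf : PT f) (hg : PT g) : PT (fun a => (f a / g a, f a % g a)) := by
  have := foldr_grow (f := fun a b (s : ℕ × ℕ) => if g a ≤ s.2 + s.2 + b.toNat ∧ 0 < g a
      then (s.1 + s.1 + 1, s.2 + s.2 + b.toNat - g a) else (s.1 + s.1, s.2 + s.2 + b.toNat))
    (s0 := fun _ => (0, 0))
    (ite (decide_and (i := fun _ => inferInstance) (j := fun _ => inferInstance) (by fun_prop)
      (by fun_prop)) (by fun_prop) (by fun_prop))
    hf.bits (by fun_prop) (g := fun _ => 12) (by fun_prop)
    (fun a s x _ => by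
      have h1 := sz_add_le s.1 s.1
      have h2 := sz_add_le (s.1 + s.1) 1
      have h3 := sz_nat_le 1
      have h4 := sz_add_le s.2 s.2
      have h5 := sz_add_le (s.2 + s.2) x.toNat
      have h6 : PolyTime.sz x.toNat ≤ 1 := (sz_nat_le _).trans (by cases x <;> simp)
      have h7 := sz_nat_mono (Nat.sub_le (s.2 + s.2 + x.toNat) (g a))
      rw [sz_prod s]
      split_ifs <;> simp <;> omega)
  exact this.of_eq fun a => by rw [divmod_aux, val_bits]

@[fun_prop] theorem div {f g : α → ℕ} (hf : PT f) (hg : PT g) : PT (fun a => f a / g a) :=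
  (divmod hf hg).fst

@[fun_prop] theorem mod {f g : α → ℕ} (hf : PT f) (hg : PT g) : PT (fun a => f a % g a) :=
  (divmod hf hg).snd

@[fun_prop] theorem pow {f g : α → ℕ} (hf : PT f) (hg : PT g) (hb : PB g) :
    PT (fun a => f a ^ g a) := by
  have := iterate_grow (f := fun a (s : ℕ) => s * f a) (s0 := fun _ => 1) (by fun_prop) hg hb
    (by fun_prop) (g := fun a => PolyTime.sz (f a)) (by fun_prop) (fun a s => sz_mul_le _ _)
  refine this.of_eq fun a => ?_
  induction g a with
  | zero => simp
  | succ k ih => rw [iterate_succ_apply', ih, pow_succ]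

end PT

end Pool.Agent.Shared.PolyTime
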