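import Pool.Agent.Shared.PolyTime.Basic

/-!
Equality tests, arithmetic on binary natural numbers, unary counters and iteration.
-/

namespace Pool.Agent.Shared.PolyTime

open Function N487b59b3

variable {α β γ δ σ : Type} [N487b59b3 α] [N487b59b3 β] [N487b59b3 γ] [N487b59b3 δ] [N487b59b3 σ]

theorem encodePosNum_eq (p : PosNum) : Computability.encodePosNum p = (p : ℕ).bits := by
  induction p with
  | one => simp [Computability.encodePosNum]
  | bit1 p ih =>
    rw [Computability.encodePosNum, ih, PosNum.cast_bit1, ← two_mul, Nat.bit1_bits]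
  | bit0 p ih =>
    rw [Computability.encodePosNum, ih, PosNum.cast_bit0, ← two_mul, Nat.bit0_bits]
    exact (PosNum.cast_pos p).ne'

theorem enc_nat (n : ℕ) : bitEncode n = n.bits := by
  change Computability.encodeNum (n : Num) = _
  conv_rhs => rw [← Num.to_of_nat n]
  cases (n : Num) with
  | zero => simp [Computability.encodeNum]
  | pos p => simp [Computability.encodeNum, encodePosNum_eq]

theorem sz_nat (n : ℕ) : sz n = n.size := by rw [sz, enc_nat, Nat.size_eq_bits_len]

theorem sz_nat_le (n : ℕ) : sz n ≤ n := by
  rw [sz_nat, Nat.size_le]; exact Nat.lt_two_pow_self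

theorem sz_nat_mono {m n : ℕ} (h : m ≤ n) : sz m ≤ sz n := by
  rw [sz_nat, sz_nat]; exact Nat.size_le_size h

theorem sz_add_le (m n : ℕ) : sz (m + n) ≤ max (sz m) (sz n) + 1 := by
  rw [sz_nat, sz_nat, sz_nat, Nat.size_le, pow_succ]
  have h1 := Nat.lt_size_self m
  have h2 := Nat.lt_size_self n
  have h3 : 2 ^ m.size ≤ 2 ^ max m.size n.size := Nat.pow_le_pow_right (by omega) (by omega)
  have h4 : 2 ^ n.size ≤ 2 ^ max m.size n.size := Nat.pow_le_pow_right (by omega) (by omega)
  omega

theorem sz_mul_le (m n : ℕ) : sz (m * n) ≤ sz m + sz n := by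
  rw [sz_nat, sz_nat, sz_nat, Nat.size_le, pow_add]
  exact Nat.mul_lt_mul'' (Nat.lt_size_self m) (Nat.lt_size_self n)

/-- Value of a list of bits, least significant first. -/
def val : List Bool → ℕ
  | [] => 0
  | b :: l => b.toNat + 2 * val l

theorem val_bits (n : ℕ) : val n.bits = n := by
  induction n using Nat.binaryRec' with
  | zero => simp [val]
  | bit b n h ih => rw [Nat.bits_append_bit n b h, val, ih, Nat.bit_val]; omega

theorem val_append (l m : List Bool) : val (l ++ m) = val l + 2 ^ l.length * val m := by
  induction l with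
  | nil => simp [val]
  | cons b l ih => simp only [List.cons_append, val, ih, List.length_cons]; ring

theorem val_lt (l : List Bool) : val l < 2 ^ l.length := by
  induction l with
  | nil => simp [val]
  | cons b l ih => simp only [val, List.length_cons, pow_succ]; cases b <;> simp <;> omega

theorem val_map_false {β : Type} (l : List β) : val (l.map fun _ => false) = 0 := by
  induction l with
  | nil => rfl
  | cons b l ih => simp only [List.map_cons, val, ih]; rfl

theorem val_head_tail (l : List Bool) : val l = (l.headD false).toNat + 2 * val l.tail := by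
  cases l <;> simp [val]

theorem bits_val (l : List Bool) : (val l).bits =
    l.reverse.foldl (fun s b => cond (s.isEmpty && !b) [] (b :: s)) [] := by
  induction l with
  | nil => simp [val]
  | cons b l ih =>
    rw [List.reverse_cons, List.foldl_append, ← ih]
    simp only [List.foldl_cons, List.foldl_nil, val]
    by_cases h : val l = 0
    · cases b <;> simp [h]
    · have h2 : (val l).bits ≠ [] := by
        intro h3
        have := val_bits (val l)
        rw [h3] at this
        exact h this.symm
      cases b
      · have h3 : (val l).bits.isEmpty = false := by simpa using h2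
        simp [h3, Nat.bit0_bits _ h]
      · simp [Nat.add_comm 1, Nat.bit1_bits]

namespace PT

@[fun_prop] theorem bits {f : α → ℕ} (hf : PT f) : PT (fun a => (f a).bits) :=
  hf.bitEncode.of_eq fun _ => enc_nat _

@[fun_prop] theorem val {l : α → List Bool} (hl : PT l) : PT (fun a => val (l a)) := by
  have := foldl_grow (f := fun _ (s : List Bool) b => _root_.cond (s.isEmpty && !b) [] (b :: s))
    (s0 := fun _ => []) (by fun_prop) hl.reverse (by fun_prop) (g := fun _ => 3) (by fun_prop)
    (fun a s x _ => by cases (s.isEmpty && !x) <;> simp; omega)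
  exact this.of_bits fun a => by rw [enc_nat, bits_val]

theorem eqBits_aux (l : List Bool) : ∀ (ok : Bool) (r : List Bool),
    (let s := l.foldl (fun (s : Bool × List Bool) b =>
      (s.1 && (!s.2.isEmpty && !(Bool.xor b (s.2.headD false))), s.2.tail)) (ok, r)
     s.1 && s.2.isEmpty) = (ok && decide (l = r)) := by
  induction l with
  | nil => intro ok r; cases r <;> simp
  | cons b l ih =>
    intro ok r
    simp only [List.foldl_cons]
    rw [ih]
    cases r with
    | nil => simp
    | cons c r => by_cases h : l = r <;> cases b <;> cases c <;> simp [h]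

theorem eqBits {f g : α → List Bool} (hf : PT f) (hg : PT g) :
    PT (fun a => decide (f a = g a)) := by
  have := foldl_grow (f := fun _ (s : Bool × List Bool) b =>
      (s.1 && (!s.2.isEmpty && !(Bool.xor b (s.2.headD false))), s.2.tail))
    (s0 := fun a => (true, g a)) (by fun_prop) hf (by fun_prop) (g := fun _ => 0) (by fun_prop)
    (fun a s x _ => by
      have := sz_sublist (List.tail_sublist s.2)
      rw [sz_prod s]; simp; omega)
  refine (this.fst.and this.snd.isEmpty).of_eq fun a => ?_
  simpa using eqBits_aux (f a) true (g a)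

@[fun_prop] theorem decide_eq {f g : α → β} {inst : ∀ a, Decidable (f a = g a)} (hf : PT f)
    (hg : PT g) : PT (fun a => @decide (f a = g a) (inst a)) :=
  (eqBits hf.bitEncode hg.bitEncode).of_eq fun a => by
    simp [bitEncode_injective.eq_iff]

@[fun_prop] theorem beq [BEq β] [LawfulBEq β] {f g : α → β} (hf : PT f) (hg : PT g) :
    PT (fun a => f a == g a) := by
  classical
  exact (decide_eq (inst := fun _ => inferInstance) hf hg).of_eq fun a => by
    by_cases h : f a = g a <;> simp [h]

@[fun_prop] theorem bne [BEq β] [LawfulBEq β] {f g : α → β} (hf : PT f) (hg : PT g) :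
    PT (fun a => f a != g a) := (beq hf hg).not

/-- One step of binary addition. -/
def addStep (s : Bool × List Bool × List Bool) (b : Bool) : Bool × List Bool × List Bool :=
  ((b && s.2.1.headD false) || (s.1 && (b || s.2.1.headD false)), s.2.1.tail,
    Bool.xor s.1 (Bool.xor b (s.2.1.headD false)) :: s.2.2)

theorem addStep_spec (m : List Bool) : ∀ s : Bool × List Bool × List Bool,
    s.2.1.length ≤ m.length →
    PolyTime.val ((m.foldl addStep s).2.2.reverse ++ [(m.foldl addStep s).1]) =
      PolyTime.val s.2.2.reverse +
        2 ^ s.2.2.length * (s.1.toNat + PolyTime.val m + PolyTime.val s.2.1) := by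
  induction m with
  | nil =>
    rintro ⟨c, r, o⟩ h
    have : r = [] := List.eq_nil_of_length_eq_zero (by simpa using h)
    simp [val_append, PolyTime.val, this]
  | cons b m ih =>
    rintro ⟨c, r, o⟩ h
    rw [List.foldl_cons, ih _ (by simp [addStep] at h ⊢; omega), val_head_tail r]
    simp only [addStep, List.reverse_cons, val_append, PolyTime.val, List.length_cons,
      List.length_reverse]
    generalize r.headD false = d
    cases b <;> cases c <;> cases d <;> simp <;> ring

@[fun_prop] theorem add {f g : α → ℕ} (hf : PT f) (hg : PT g) : PT (fun a => f a + g a) := by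
  have := foldl_grow (f := fun _ s b => addStep s b)
    (l := fun a => (f a).bits ++ (g a).bits.map fun _ => false)
    (s0 := fun a => (false, (g a).bits, [])) (by unfold addStep; fun_prop) (by fun_prop)
    (by fun_prop) (g := fun _ => 3) (by fun_prop)
    (fun a s x _ => by
      have := sz_sublist (List.tail_sublist s.2.1)
      rw [sz_prod s, sz_prod s.2]; simp [addStep]; omega)
  refine (this.snd.snd.reverse.append (this.fst.cons (const []))).val.of_eq fun a => ?_
  rw [addStep_spec _ _ (by simp)]
  simp only [val_append, val_map_false, val_bits, PolyTime.val, List.reverse_nil]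
  simp

@[fun_prop] theorem succ {f : α → ℕ} (hf : PT f) : PT (fun a => (f a).succ) := hf.add (const 1)

/-- One step of binary subtraction. -/
def subStep (s : Bool × List Bool × List Bool) (b : Bool) : Bool × List Bool × List Bool :=
  ((!b && (s.2.1.headD false || s.1)) || (s.1 && s.2.1.headD false), s.2.1.tail,
    Bool.xor s.1 (Bool.xor b (s.2.1.headD false)) :: s.2.2)

theorem subStep_spec (m : List Bool) : ∀ s : Bool × List Bool × List Bool,
    s.2.1.length ≤ m.length →
    (PolyTime.val (m.foldl subStep s).2.2.reverse : ℤ) -
      2 ^ (m.foldl subStep s).2.2.length * (m.foldl subStep s).1.toNat =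
      PolyTime.val s.2.2.reverse +
        2 ^ s.2.2.length * (PolyTime.val m - PolyTime.val s.2.1 - s.1.toNat) := by
  induction m with
  | nil =>
    rintro ⟨c, r, o⟩ h
    have : r = [] := List.eq_nil_of_length_eq_zero (by simpa using h)
    simp [PolyTime.val, this]; ring
  | cons b m ih =>
    rintro ⟨c, r, o⟩ h
    rw [List.foldl_cons, ih _ (by simp [subStep] at h ⊢; omega), val_head_tail r]
    simp only [subStep, List.reverse_cons, val_append, PolyTime.val, List.length_cons,
      List.length_reverse]
    generalize r.headD false = d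
    cases b <;> cases c <;> cases d <;> simp <;> ring

theorem sub_aux {f g : α → ℕ} (hf : PT f) (hg : PT g) :
    ∃ (c : α → Bool) (v : α → ℕ), PT c ∧ PT v ∧ ∀ a, (c a = true ↔ f a < g a) ∧
      (c a = false → v a = f a - g a) := by
  have := foldl_grow (f := fun _ s b => subStep s b)
    (l := fun a => (f a).bits ++ (g a).bits.map fun _ => false)
    (s0 := fun a => (false, (g a).bits, [])) (by unfold subStep; fun_prop) (by fun_prop)
    (by fun_prop) (g := fun _ => 3) (by fun_prop)
    (fun a s x _ => by
      have := sz_sublist (List.tail_sublist s.2.1)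
      rw [sz_prod s, sz_prod s.2]; simp [subStep]; omega)
  refine ⟨_, _, this.fst, this.snd.snd.reverse.val, fun a => ?_⟩
  have h := subStep_spec ((f a).bits ++ (g a).bits.map fun _ => false)
    (false, (g a).bits, []) (by simp)
  simp only [val_append, val_map_false, val_bits, PolyTime.val, List.reverse_nil] at h
  generalize List.foldl subStep _ _ = s at h ⊢
  have h2 := val_lt s.2.2.reverse
  rw [List.length_reverse] at h2
  have h3 : ((2 ^ s.2.2.length : ℕ) : ℤ) = 2 ^ s.2.2.length := by simp
  rw [← h3] at h
  generalize 2 ^ s.2.2.length = K at h h2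
  cases hs : s.1 <;> simp [hs] at h ⊢ <;> omega

@[fun_prop] theorem decide_lt {f g : α → ℕ} {inst : ∀ a, Decidable (f a < g a)} (hf : PT f)
    (hg : PT g) : PT (fun a => @decide (f a < g a) (inst a)) := by
  obtain ⟨c, v, hc, _, h⟩ := sub_aux hf hg
  exact hc.of_eq fun a => by
    have := (h a).1
    by_cases h' : f a < g a
    · simp [h', this.2 h']
    · have : c a = false := by simpa [h'] using this
      simp [h', this]

@[fun_prop] theorem decide_le {f g : α → ℕ} {inst : ∀ a, Decidable (f a ≤ g a)} (hf : PT f)
    (hg : PT g) : PT (fun a => @decide (f a ≤ g a) (inst a)) :=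
  (decide_lt (inst := fun _ => inferInstance) hg hf).not.of_eq fun a => by
    by_cases h' : g a < f a
    · simp [h']
    · simp [h']; omega

@[fun_prop] theorem sub {f g : α → ℕ} (hf : PT f) (hg : PT g) : PT (fun a => f a - g a) := by
  obtain ⟨c, v, hc, hv, h⟩ := sub_aux hf hg
  exact (hc.cond (const 0) hv).of_eq fun a => by
    obtain ⟨h1, h2⟩ := h a
    cases hc : c a
    · simp [h2 hc]
    · have := h1.1 hc; simp; omega

@[fun_prop] theorem pred {f : α → ℕ} (hf : PT f) : PT (fun a => (f a).pred) := hf.sub (const 1)

@[fun_prop] theorem decide_bool {f : α → Bool} {inst : ∀ a, Decidable (f a = true)} (hf : PT f) :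
    PT (fun a => @decide (f a = true) (inst a)) := hf.of_eq fun a => by simp

@[fun_prop] theorem decide_not {p : α → Prop} {i : ∀ a, Decidable (p a)}
    {inst : ∀ a, Decidable (¬ p a)} (hp : PT (fun a => @decide (p a) (i a))) :
    PT (fun a => @decide (¬ p a) (inst a)) := hp.not.of_eq fun a => by simp

@[fun_prop] theorem decide_ne {f g : α → β} {inst : ∀ a, Decidable (f a ≠ g a)} (hf : PT f)
    (hg : PT g) : PT (fun a => @decide (f a ≠ g a) (inst a)) := by
  classical
  exact (decide_eq (inst := fun _ => inferInstance) hf hg).not.of_eq fun a => by simp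

theorem decide_and {p q : α → Prop} {i : ∀ a, Decidable (p a)} {j : ∀ a, Decidable (q a)}
    {inst : ∀ a, Decidable (p a ∧ q a)} (hp : PT (fun a => @decide (p a) (i a)))
    (hq : PT (fun a => @decide (q a) (j a))) :
    PT (fun a => @decide (p a ∧ q a) (inst a)) := (hp.and hq).of_eq fun a => by simp

theorem decide_or {p q : α → Prop} {i : ∀ a, Decidable (p a)} {j : ∀ a, Decidable (q a)}
    {inst : ∀ a, Decidable (p a ∨ q a)} (hp : PT (fun a => @decide (p a) (i a)))
    (hq : PT (fun a => @decide (q a) (j a))) :
    PT (fun a => @decide (p a ∨ q a) (inst a)) := (hp.or hq).of_eq fun a => by simp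

@[fun_prop] theorem ite {p : α → Prop} {inst : ∀ a, Decidable (p a)} {f g : α → β}
    (hp : PT (fun a => @decide (p a) (inst a))) (hf : PT f) (hg : PT g) :
    PT (fun a => @_root_.ite _ (p a) (inst a) (f a) (g a)) :=
  (hp.cond hf hg).of_eq fun a => by simp

@[fun_prop] theorem min {f g : α → ℕ} (hf : PT f) (hg : PT g) :
    PT (fun a => min (f a) (g a)) := by
  have : PT (fun a => if f a ≤ g a then f a else g a) := by fun_prop
  exact this.of_eq fun a => by split_ifs <;> omega

@[fun_prop] theorem max {f g : α → ℕ} (hf : PT f) (hg : PT g) :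
    PT (fun a => max (f a) (g a)) := by
  have : PT (fun a => if f a ≤ g a then g a else f a) := by fun_prop
  exact this.of_eq fun a => by split_ifs <;> omega

@[fun_prop] theorem mul {f g : α → ℕ} (hf : PT f) (hg : PT g) : PT (fun a => f a * g a) := by
  have := foldl_grow (f := fun a (s : ℕ) b => s + s + _root_.cond b (g a) 0)
    (l := fun a => (f a).bits.reverse) (s0 := fun _ => 0) (by fun_prop) (by fun_prop)
    (by fun_prop) (g := fun a => sz (g a) + 2) (by fun_prop)
    (fun a s x _ => by
      have h1 := sz_add_le s s
      have h2 := sz_add_le (s + s) (_root_.cond x (g a) 0)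
      have h3 : sz (_root_.cond x (g a) 0) ≤ sz (g a) := sz_nat_mono (by cases x <;> simp)
      omega)
  refine this.of_eq fun a => ?_
  conv_rhs => rw [← val_bits (f a)]
  induction (f a).bits with
  | nil => simp [PolyTime.val]
  | cons b l ih =>
    rw [List.reverse_cons, List.foldl_append, ih]
    cases b <;> simp [PolyTime.val] <;> ring

@[fun_prop] theorem length {l : α → List β} (hl : PT l) : PT (fun a => (l a).length) := by
  have := foldl_grow (f := fun _ (s : ℕ) _ => s + 1) (s0 := fun _ => 0) (by fun_prop) hl
    (by fun_prop) (g := fun _ => 2) (by fun_prop)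
    (fun a s x _ => by
      have h1 := sz_add_le s 1
      have h2 := sz_nat_le 1
      omega)
  refine this.of_eq fun a => ?_
  have : ∀ (m : List β) (s : ℕ), m.foldl (fun s _ => s + 1) s = s + m.length := by
    intro m
    induction m with
    | nil => simp
    | cons x m ih => intro s; simp [ih]; omega
  simp [this]

@[fun_prop] theorem sz {f : α → β} (hf : PT f) : PT (fun a => sz (f a)) := hf.bitEncode.length

@[fun_prop] theorem sum {l : α → List ℕ} (hl : PT l) : PT (fun a => (l a).sum) := by
  obtain ⟨g, hg, hb⟩ := bound_mem (h := fun _ x => x) (by fun_prop) hl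
  have := foldl_grow (f := fun _ (s : ℕ) x => s + x) (s0 := fun _ => 0) (by fun_prop) hl
    (by fun_prop) (g := fun a => g a + 1) (by fun_prop)
    (fun a s x hx => by
      have h1 := sz_add_le s x
      have h2 := hb a x hx
      omega)
  exact this.of_eq fun a => by rw [List.sum_eq_foldl]

theorem range_length {l : α → List β} (hl : PT l) : PT (fun a => List.range (l a).length) := by
  have key : ∀ (m : List β) (k : ℕ), m.foldl (fun (s : List ℕ) _ => s ++ [s.length])
      (List.range k) = List.range (k + m.length) := by
    intro m
    induction m with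
    | nil => simp
    | cons x m ih =>
      intro k
      rw [List.foldl_cons, List.length_range, ← List.range_succ, ih, List.length_cons]
      congr 1; omega
  have := foldl (f := fun _ (s : List ℕ) _ => s ++ [s.length]) (s0 := fun _ => List.range 0)
    (by fun_prop) hl (by fun_prop) (B := fun a => (l a).length * (2 * (l a).length + 1))
    (by fun_prop) (fun a i => by
      rw [key]
      have h0 : 0 + ((l a).take i).length ≤ (l a).length := by simp
      refine (sz_list_le (B := (l a).length) fun x hx => ?_).trans ?_
      · have := List.mem_range.1 hx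
        have := sz_nat_le x
        omega
      · rw [List.length_range]; exact Nat.mul_le_mul_right _ h0)
  exact this.of_eq fun a => by rw [key]; simp

theorem unary_poly (q : Polynomial ℕ) :
    ∃ u : α → List Bool, PT u ∧ ∀ a, (u a).length = q.eval (PolyTime.sz a) := by
  induction q using Polynomial.induction_on with
  | C c => exact ⟨fun _ => List.replicate c true, const _, by simp⟩
  | add p q hp hq =>
    obtain ⟨u, hu, h⟩ := hp
    obtain ⟨v, hv, h'⟩ := hq
    exact ⟨_, hu.append hv, by simp [h, h']⟩
  | monomial k c ih =>
    obtain ⟨u, hu, h⟩ := ih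
    refine ⟨fun a => (u a).flatMap fun _ => N487b59b3.bitEncode a, by fun_prop, fun a => ?_⟩
    simp only [List.length_flatMap, List.map_const', List.sum_replicate, h, smul_eq_mul,
      Polynomial.eval_mul, Polynomial.eval_C, Polynomial.eval_pow, Polynomial.eval_X, PolyTime.sz]
    ring

@[fun_prop] theorem range {n : α → ℕ} (hn : PT n) (hb : PB n) :
    PT (fun a => List.range (n a)) := by
  obtain ⟨q, hq⟩ := hb
  obtain ⟨u, hu, h⟩ := unary_poly (α := α) q
  have := filter (h := fun a x => decide (x < n a)) hu.range_length (by fun_prop)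
  refine this.of_eq fun a => ?_
  have h1 : n a ≤ (u a).length := by rw [h]; exact hq a
  obtain ⟨k, hk⟩ := Nat.exists_eq_add_of_le h1
  rw [hk, List.range_add, List.filter_append, List.filter_eq_self.2, List.filter_eq_nil_iff.2]
  · simp
  · simp
  · simp

@[fun_prop] theorem replicate {n : α → ℕ} {x : α → β} (hn : PT n) (hb : PB n) (hx : PT x) :
    PT (fun a => List.replicate (n a) (x a)) :=
  (map (h := fun a _ => x a) (range hn hb) (by fun_prop)).of_eq fun a => by simp

omit [N487b59b3 σ] in
theorem foldl_const {β : Type} (f : σ → σ) (l : List β) (s : σ) :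
    l.foldl (fun s _ => f s) s = f^[l.length] s := by
  induction l generalizing s with
  | nil => rfl
  | cons x l ih => simp [ih]

/-- Iteration, given a polynomial bound on the number of rounds and on the size of the states. -/
theorem iterate {f : α → σ → σ} {n : α → ℕ} {s0 : α → σ}
    (hf : PT (fun p : α × σ => f p.1 p.2)) (hn : PT n) (hnb : PB n) (hs : PT s0)
    {B : α → ℕ} (hB : PB B) (hb : ∀ a, ∀ i ≤ n a, PolyTime.sz ((f a)^[i] (s0 a)) ≤ B a) :
    PT (fun a => (f a)^[n a] (s0 a)) := by
  have := foldl (f := fun a s (_ : ℕ) => f a s) (l := fun a => List.range (n a))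
    (hf.comp' (f := fun p : α × σ × ℕ => (p.1, p.2.1)) (by fun_prop)) (range hn hnb) hs hB
    (fun a i => by rw [foldl_const]; exact hb a _ (by simp))
  exact this.of_eq fun a => by rw [foldl_const]; simp

/-- Iteration with an invariant that bounds the size of the state. -/
theorem iterate_inv {f : α → σ → σ} {n : α → ℕ} {s0 : α → σ}
    (hf : PT (fun p : α × σ => f p.1 p.2)) (hn : PT n) (hnb : PB n) (hs : PT s0)
    (I : α → σ → Prop) (h0 : ∀ a, I a (s0 a)) (hI : ∀ a s, I a s → I a (f a s))
    {B : α → ℕ} (hB : PB B) (hb : ∀ a s, I a s → PolyTime.sz s ≤ B a) :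
    PT (fun a => (f a)^[n a] (s0 a)) :=
  iterate hf hn hnb hs hB fun a i _ => hb a _ (by
    induction i with
    | zero => exact h0 a
    | succ i ih => rw [iterate_succ_apply']; exact hI a _ (ih (by omega)))

/-- Iteration in which each round adds at most a polynomial amount to the size of the state. -/
theorem iterate_grow {f : α → σ → σ} {n : α → ℕ} {s0 : α → σ}
    (hf : PT (fun p : α × σ => f p.1 p.2)) (hn : PT n) (hnb : PB n) (hs : PT s0)
    {g : α → ℕ} (hg : PB g) (hb : ∀ a s, PolyTime.sz (f a s) ≤ PolyTime.sz s + g a) :
    PT (fun a => (f a)^[n a] (s0 a)) := by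
  have := foldl_grow (f := fun a s (_ : ℕ) => f a s) (l := fun a => List.range (n a))
    (hf.comp' (f := fun p : α × σ × ℕ => (p.1, p.2.1)) (by fun_prop)) (range hn hnb) hs hg
    (fun a s _ _ => hb a s)
  exact this.of_eq fun a => by rw [foldl_const]; simp

end PT

end Pool.Agent.Shared.PolyTime
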