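import Mathlib
import Pool.Prelude.Def_H_3587d628

/-!
A small structured stack language over bit registers, with a cost semantics, and its
compilation to the multi-stack machines `Turing.FinTM2` of Mathlib.
-/

namespace Pool.Agent.Shared.PolyTime

open Function Turing Turing.TM2

/-- Structured programs over stacks of bits indexed by natural numbers. -/
inductive Prog
  | skip
  | push (r : ℕ) (b : Bool)
  | pop (r : ℕ)
  | seq (p q : Prog)
  | ite (r : ℕ) (pe pf pt : Prog)
  | loop (r : ℕ) (p : Prog)

/-- The contents of all registers. -/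
abbrev St := ℕ → List Bool

/-- Big-step semantics with an upper bound on the cost. -/
inductive Run : Prog → St → St → ℕ → Prop
  | skip (S : St) : Run .skip S S 0
  | push (r : ℕ) (b : Bool) (S : St) : Run (.push r b) S (update S r (b :: S r)) 1
  | pop (r : ℕ) (S : St) : Run (.pop r) S (update S r (S r).tail) 0
  | seq {p q : Prog} {S S1 S2 : St} {t1 t2 : ℕ} :
      Run p S S1 t1 → Run q S1 S2 t2 → Run (.seq p q) S S2 (t1 + t2)
  | iteE {r : ℕ} {pe pf pt : Prog} {S S' : St} {t : ℕ} :
      S r = [] → Run pe S S' t → Run (.ite r pe pf pt) S S' t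
  | iteF {r : ℕ} {pe pf pt : Prog} {S S' : St} {t : ℕ} {l : List Bool} :
      S r = false :: l → Run pf S S' t → Run (.ite r pe pf pt) S S' t
  | iteT {r : ℕ} {pe pf pt : Prog} {S S' : St} {t : ℕ} {l : List Bool} :
      S r = true :: l → Run pt S S' t → Run (.ite r pe pf pt) S S' t
  | loopE {r : ℕ} {p : Prog} {S : St} : S r = [] → Run (.loop r p) S S 1
  | loopS {r : ℕ} {p : Prog} {S S1 S2 : St} {t1 t2 : ℕ} :
      S r ≠ [] → Run p S S1 t1 → Run (.loop r p) S1 S2 t2 → Run (.loop r p) S S2 (t1 + t2 + 1)
  | mono {p : Prog} {S S' : St} {t t' : ℕ} : Run p S S' t → t ≤ t' → Run p S S' t'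

theorem Run.length_le {p : Prog} {S S' : St} {t : ℕ} (h : Run p S S' t) (r : ℕ) :
    (S' r).length ≤ (S r).length + t := by
  induction h with
  | skip S => simp
  | push r' b S =>
    by_cases hr : r = r'
    · subst hr; simp
    · simp [update_of_ne hr]
  | pop r' S =>
    by_cases hr : r = r'
    · subst hr; simp
    · simp [update_of_ne hr]
  | seq _ _ ih1 ih2 => omega
  | iteE _ _ ih => exact ih
  | iteF _ _ ih => exact ih
  | iteT _ _ ih => exact ih
  | loopE _ => omega
  | loopS _ _ _ ih1 ih2 => omega
  | mono _ _ ih => omega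

/-- A strict upper bound on the registers a program mentions. -/
def Prog.bound : Prog → ℕ
  | .skip => 0
  | .push r _ => r + 1
  | .pop r => r + 1
  | .seq p q => max p.bound q.bound
  | .ite r pe pf pt => max (r + 1) (max pe.bound (max pf.bound pt.bound))
  | .loop r p => max (r + 1) p.bound

/-- The loop heads of a program. -/
def Lab : Prog → Type
  | .skip => Empty
  | .push _ _ => Empty
  | .pop _ => Empty
  | .seq p q => Lab p ⊕ Lab q
  | .ite _ pe pf pt => Lab pe ⊕ Lab pf ⊕ Lab pt
  | .loop _ p => Option (Lab p)

/-- Finiteness of the set of loop heads. -/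
@[reducible] def labFin : (p : Prog) → Fintype (Lab p)
  | .skip => inferInstanceAs (Fintype Empty)
  | .push _ _ => inferInstanceAs (Fintype Empty)
  | .pop _ => inferInstanceAs (Fintype Empty)
  | .seq p q => @instFintypeSum _ _ (labFin p) (labFin q)
  | .ite _ pe pf pt => @instFintypeSum _ _ (labFin pe) (@instFintypeSum _ _ (labFin pf) (labFin pt))
  | .loop _ p => @instFintypeOption _ (labFin p)

section Compile

variable {Λ : Type} (n : ℕ)

/-- Statements of the target machine. -/
abbrev TS (n : ℕ) (Λ : Type) := TM2.Stmt (fun _ : Fin (n + 1) => Bool) Λ (Option Bool)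

/-- Register numbering in the target machine. -/
def reg (r : ℕ) : Fin (n + 1) := Fin.ofNat (n + 1) r

/-- Three-way branch on the top of a stack. -/
def br (r : ℕ) (ke kf kt : TS n Λ) : TS n Λ :=
  .peek (reg n r) (fun _ x => x)
    (.branch (fun v => v.isNone) (.load (fun _ => none) ke)
      (.branch (fun v => v == some true) (.load (fun _ => none) kt) (.load (fun _ => none) kf)))

/-- Entry code of a program with a continuation. -/
def entry : (p : Prog) → (Lab p → Λ) → TS n Λ → TS n Λ
  | .skip, _, k => k
  | .push r b, _, k => .push (reg n r) (fun _ => b) k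
  | .pop r, _, k => .pop (reg n r) (fun v _ => v) k
  | .seq p q, e, k => entry p (fun l => e (Sum.inl l)) (entry q (fun l => e (Sum.inr l)) k)
  | .ite r pe pf pt, e, k => br n r (entry pe (fun l => e (Sum.inl l)) k)
      (entry pf (fun l => e (Sum.inr (Sum.inl l))) k) (entry pt (fun l => e (Sum.inr (Sum.inr l))) k)
  | .loop _ _, e, _ => .goto (fun _ => e none)

/-- Code at the loop heads of a program with a continuation. -/
def code : (p : Prog) → (Lab p → Λ) → TS n Λ → Lab p → TS n Λ
  | .skip, _, k, _ => k
  | .push _ _, _, k, _ => k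
  | .pop _, _, k, _ => k
  | .seq p q, e, k, l => Sum.elim
      (code p (fun l => e (Sum.inl l)) (entry n q (fun l => e (Sum.inr l)) k))
      (code q (fun l => e (Sum.inr l)) k) l
  | .ite _ pe pf pt, e, k, l => Sum.elim (code pe (fun l => e (Sum.inl l)) k)
      (Sum.elim (code pf (fun l => e (Sum.inr (Sum.inl l))) k)
        (code pt (fun l => e (Sum.inr (Sum.inr l))) k)) l
  | .loop r p, e, k, l => Option.elim l
      (br n r k (entry n p (fun l => e (some l)) (.goto (fun _ => e none)))
        (entry n p (fun l => e (some l)) (.goto (fun _ => e none))))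
      (code p (fun l => e (some l)) (.goto (fun _ => e none)))

/-- Restriction of the registers to the stacks of the target machine. -/
def res (S : St) : Fin (n + 1) → List Bool := fun k => S k.val

variable {n}

theorem reg_val {r : ℕ} (h : r < n + 1) : (reg n r).val = r := by
  simp [reg, Nat.mod_eq_of_lt h]

theorem res_reg {r : ℕ} (h : r < n + 1) (S : St) : res n S (reg n r) = S r := by
  simp [res, reg_val h]

theorem res_update {r : ℕ} (h : r < n + 1) (S : St) (v : List Bool) :
    update (res n S) (reg n r) v = res n (update S r v) := by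
  funext k
  by_cases hk : k = reg n r
  · subst hk; simp [res, reg_val h]
  · have : k.val ≠ r := fun h' => hk (Fin.ext (by rw [reg_val h, h']))
    simp [res, update_of_ne hk, update_of_ne this]

theorem stepAux_brE {r : ℕ} (h : r < n + 1) {S : St} (hS : S r = []) (ke kf kt : TS n Λ) :
    stepAux (br n r ke kf kt) none (res n S) = stepAux ke none (res n S) := by
  simp [br, res_reg h, hS]

theorem stepAux_brF {r : ℕ} (h : r < n + 1) {S : St} {l : List Bool} (hS : S r = false :: l)
    (ke kf kt : TS n Λ) :
    stepAux (br n r ke kf kt) none (res n S) = stepAux kf none (res n S) := by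
  simp [br, res_reg h, hS]

theorem stepAux_brT {r : ℕ} (h : r < n + 1) {S : St} {l : List Bool} (hS : S r = true :: l)
    (ke kf kt : TS n Λ) :
    stepAux (br n r ke kf kt) none (res n S) = stepAux kt none (res n S) := by
  simp [br, res_reg h, hS]

theorem iter_bind_succ {σ : Type} (f : σ → Option σ) (t : ℕ) (a : σ) :
    (flip bind f)^[t + 1] (some a) = (flip bind f)^[t] (f a) := rfl

theorem Run.sim {p : Prog} {S S' : St} {t : ℕ} (h : Run p S S' t) (M : Λ → TS n Λ) :
    p.bound ≤ n + 1 → ∀ (e : Lab p → Λ) (k : TS n Λ), (∀ l, M (e l) = code n p e k l) →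
      ∃ t' ≤ t, (flip bind (TM2.step M))^[t'] (some (stepAux (entry n p e k) none (res n S))) =
        some (stepAux k none (res n S')) := by
  induction h with
  | skip S => intro _ e k _; exact ⟨0, le_rfl, rfl⟩
  | push r b S =>
    intro hb e k _
    have hr : r < n + 1 := hb
    refine ⟨0, by omega, ?_⟩
    simp only [entry, stepAux, iterate_zero, id, res_reg hr]
    rw [res_update hr]
  | pop r S =>
    intro hb e k _
    have hr : r < n + 1 := hb
    refine ⟨0, by omega, ?_⟩
    simp only [entry, stepAux, iterate_zero, id, res_reg hr]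
    rw [res_update hr]
  | @seq p q S S1 S2 t1 t2 _ _ ih1 ih2 =>
    intro hb e k hM
    simp only [Prog.bound, max_le_iff] at hb
    obtain ⟨a, ha, h1⟩ := ih1 hb.1 (fun l => e (Sum.inl l)) _ (fun l => hM (Sum.inl l))
    obtain ⟨b, hb', h2⟩ := ih2 hb.2 (fun l => e (Sum.inr l)) k (fun l => hM (Sum.inr l))
    refine ⟨b + a, by omega, ?_⟩
    rw [iterate_add_apply]
    simp only [entry]
    rw [h1, h2]
  | @iteE r pe pf pt S S' t hS _ ih =>
    intro hb e k hM
    simp only [Prog.bound, max_le_iff] at hb
    obtain ⟨a, ha, h1⟩ := ih hb.2.1 (fun l => e (Sum.inl l)) k (fun l => hM (Sum.inl l))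
    refine ⟨a, ha, ?_⟩
    simp only [entry]
    rw [stepAux_brE hb.1 hS, h1]
  | @iteF r pe pf pt S S' t l hS _ ih =>
    intro hb e k hM
    simp only [Prog.bound, max_le_iff] at hb
    obtain ⟨a, ha, h1⟩ := ih hb.2.2.1 (fun l => e (Sum.inr (Sum.inl l))) k
      (fun l => hM (Sum.inr (Sum.inl l)))
    refine ⟨a, ha, ?_⟩
    simp only [entry]
    rw [stepAux_brF hb.1 hS, h1]
  | @iteT r pe pf pt S S' t l hS _ ih =>
    intro hb e k hM
    simp only [Prog.bound, max_le_iff] at hb
    obtain ⟨a, ha, h1⟩ := ih hb.2.2.2 (fun l => e (Sum.inr (Sum.inr l))) k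
      (fun l => hM (Sum.inr (Sum.inr l)))
    refine ⟨a, ha, ?_⟩
    simp only [entry]
    rw [stepAux_brT hb.1 hS, h1]
  | @loopE r p S hS =>
    intro hb e k hM
    simp only [Prog.bound, max_le_iff] at hb
    refine ⟨1, le_rfl, ?_⟩
    have := hM none
    simp only [code, Option.elim] at this
    simp only [entry, stepAux]
    rw [iter_bind_succ]
    simp only [TM2.step, iterate_zero, id]
    rw [this, stepAux_brE hb.1 hS]
  | @loopS r p S S1 S2 t1 t2 hS _ _ ih1 ih2 =>
    intro hb e k hM
    have hb0 := hb
    simp only [Prog.bound, max_le_iff] at hb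
    obtain ⟨a, ha, h1⟩ := ih1 hb.2 (fun l => e (some l)) (.goto (fun _ => e none))
      (fun l => hM (some l))
    obtain ⟨b, hb', h2⟩ := ih2 hb0 e k hM
    refine ⟨b + a + 1, by omega, ?_⟩
    have := hM none
    simp only [code, Option.elim] at this
    simp only [entry, stepAux] at h2 ⊢
    rw [iter_bind_succ]
    simp only [TM2.step]
    rw [this, iterate_add_apply]
    have h3 : stepAux (br n r k (entry n p (fun l => e (some l)) (.goto (fun _ => e none)))
        (entry n p (fun l => e (some l)) (.goto (fun _ => e none)))) none (res n S) =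
        stepAux (entry n p (fun l => e (some l)) (.goto (fun _ => e none))) none (res n S) := by
      rcases hl : S r with _ | ⟨b, l⟩
      · exact absurd hl hS
      · cases b
        · exact stepAux_brF hb.1 hl _ _ _
        · exact stepAux_brT hb.1 hl _ _ _
    rw [h3, h1]
    exact h2
  | mono _ hle ih =>
    intro hb e k hM
    obtain ⟨a, ha, h1⟩ := ih hb e k hM
    exact ⟨a, ha.trans hle, h1⟩

end Compile

/-- The register contents with `x` in register `0` and nothing elsewhere. -/
def io (x : List Bool) : St := fun r => if r = 0 then x else []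

/-- The machine of a program. -/
def machine (p : Prog) : FinTM2 where
  K := Fin (p.bound + 1)
  k₀ := 0
  k₁ := 0
  Γ := fun _ => Bool
  Λ := Option (Lab p)
  main := none
  ΛFin := @instFintypeOption _ (labFin p)
  σ := Option Bool
  initialState := none
  m := fun l => Option.elim l (entry p.bound p some .halt) (code p.bound p some .halt)

theorem initList_machine (p : Prog) (x : List Bool) :
    initList (machine p) x = (⟨some none, none, res p.bound (io x)⟩ :
      TM2.Cfg (fun _ : Fin (p.bound + 1) => Bool) (Option (Lab p)) (Option Bool)) := by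
  unfold initList
  congr 1
  funext k
  by_cases hk : k = (0 : Fin (p.bound + 1))
  · subst hk
    exact (dif_pos rfl).trans rfl
  · have : k.val ≠ 0 := fun h => hk (Fin.ext h)
    refine (dif_neg hk).trans ?_
    exact (if_neg this).symm

theorem haltList_machine (p : Prog) (x : List Bool) :
    haltList (machine p) x = (⟨none, none, res p.bound (io x)⟩ :
      TM2.Cfg (fun _ : Fin (p.bound + 1) => Bool) (Option (Lab p)) (Option Bool)) := by
  unfold haltList
  congr 1
  funext k
  by_cases hk : k = (0 : Fin (p.bound + 1))
  · subst hk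
    exact (dif_pos rfl).trans rfl
  · have : k.val ≠ 0 := fun h => hk (Fin.ext h)
    refine (dif_neg hk).trans ?_
    exact (if_neg this).symm

/-- `RP ea F`: some program turns `ea a` into `F a` within a polynomial in the length of `ea a`. -/
def RP {α : Type} (ea : α → List Bool) (F : α → List Bool) : Prop :=
  ∃ (p : Prog) (q : Polynomial ℕ), ∀ a, Run p (io (ea a)) (io (F a)) (q.eval (ea a).length)

theorem RP.toTM2 {α β : Type} {ea : α → List Bool} {eb : β → List Bool} {f : α → β}
    (h : RP ea (fun a => eb (f a))) : Nonempty (TM2ComputableInPolyTime ea eb f) := by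
  obtain ⟨p, q, h⟩ := h
  have key : ∀ a, ∃ t ≤ (q + 1).eval (ea a).length,
      (flip bind (machine p).step)^[t] (some (initList (machine p) (ea a))) =
        some (haltList (machine p) (eb (f a))) := by
    intro a
    obtain ⟨t, ht, h1⟩ := (h a).sim (n := p.bound) (machine p).m (Nat.le_succ _) some .halt
      (fun l => rfl)
    refine ⟨t + 1, by simp; omega, ?_⟩
    rw [initList_machine, haltList_machine]
    exact h1
  choose t ht h1 using key
  exact ⟨{ tm := machine p
           inputAlphabet := Equiv.refl _
           outputAlphabet := Equiv.refl _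
           time := q + 1
           outputsFun := fun a =>
            { steps := t a
              evals_in_steps := by
                have e1 : ∀ l : List Bool, List.map (Equiv.refl Bool).invFun l = l := by
                  intro l; simp
                have := h1 a
                rw [← e1 (ea a), ← e1 (eb (f a))] at this
                exact this
              steps_le_m := ht a } }⟩

end Pool.Agent.Shared.PolyTime
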