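import Pool.Agent.Shared.PolyTime.Prog

/-!
Closure properties of `RP` (polynomial time on raw bit strings relative to an input encoding).
-/

namespace Pool.Agent.Shared.PolyTime

open Function N487b59b3

theorem Run.cast {p : Prog} {S S' S'' : St} {t t' : ℕ} (h : Run p S S' t) (e : S' = S'')
    (ht : t ≤ t') : Run p S S'' t' := e ▸ h.mono ht

/-- Renaming of registers. -/
def Prog.ren (ρ : ℕ → ℕ) : Prog → Prog
  | .skip => .skip
  | .push r b => .push (ρ r) b
  | .pop r => .pop (ρ r)
  | .seq p q => .seq (p.ren ρ) (q.ren ρ)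
  | .ite r pe pf pt => .ite (ρ r) (pe.ren ρ) (pf.ren ρ) (pt.ren ρ)
  | .loop r p => .loop (ρ r) (p.ren ρ)

theorem Run.ren {p : Prog} {S S' : St} {t : ℕ} (h : Run p S S' t) {ρ : ℕ → ℕ}
    (hρ : Injective ρ) : ∀ T : St, (∀ r, T (ρ r) = S r) →
      ∃ T', Run (p.ren ρ) T T' t ∧ (∀ r, T' (ρ r) = S' r) ∧ ∀ r, (∀ i, ρ i ≠ r) → T' r = T r := by
  induction h with
  | skip S => intro T hT; exact ⟨T, Run.skip T, hT, fun _ _ => rfl⟩
  | push r b S =>
    intro T hT
    refine ⟨_, Run.push _ b T, fun i => ?_, fun i hi => update_of_ne (hi r).symm _ _⟩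
    by_cases hi : i = r
    · subst hi; simp [hT]
    · rw [update_of_ne hi, update_of_ne (hρ.ne hi), hT]
  | pop r S =>
    intro T hT
    refine ⟨_, Run.pop _ T, fun i => ?_, fun i hi => update_of_ne (hi r).symm _ _⟩
    by_cases hi : i = r
    · subst hi; simp [hT]
    · rw [update_of_ne hi, update_of_ne (hρ.ne hi), hT]
  | seq _ _ ih1 ih2 =>
    intro T hT
    obtain ⟨T1, h1, h2, h3⟩ := ih1 T hT
    obtain ⟨T2, h4, h5, h6⟩ := ih2 T1 h2
    exact ⟨T2, Run.seq h1 h4, h5, fun r hr => (h6 r hr).trans (h3 r hr)⟩
  | iteE hS _ ih =>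
    intro T hT
    obtain ⟨T1, h1, h2, h3⟩ := ih T hT
    exact ⟨T1, Run.iteE ((hT _).trans hS) h1, h2, h3⟩
  | iteF hS _ ih =>
    intro T hT
    obtain ⟨T1, h1, h2, h3⟩ := ih T hT
    exact ⟨T1, Run.iteF ((hT _).trans hS) h1, h2, h3⟩
  | iteT hS _ ih =>
    intro T hT
    obtain ⟨T1, h1, h2, h3⟩ := ih T hT
    exact ⟨T1, Run.iteT ((hT _).trans hS) h1, h2, h3⟩
  | loopE hS =>
    intro T hT
    exact ⟨T, Run.loopE ((hT _).trans hS), hT, fun _ _ => rfl⟩
  | loopS hS _ _ ih1 ih2 =>
    intro T hT
    obtain ⟨T1, h1, h2, h3⟩ := ih1 T hT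
    obtain ⟨T2, h4, h5, h6⟩ := ih2 T1 h2
    exact ⟨T2, Run.loopS (by rw [hT]; exact hS) h1 h4, h5, fun r hr => (h6 r hr).trans (h3 r hr)⟩
  | mono _ hle ih =>
    intro T hT
    obtain ⟨T1, h1, h2, h3⟩ := ih T hT
    exact ⟨T1, h1.mono hle, h2, h3⟩

/-- A state with three working registers. -/
def st (x y z : List Bool) : St := fun r =>
  if r = 0 then x else if r = 1 then y else if r = 2 then z else []

theorem io_eq (x : List Bool) : io x = st x [] [] := by
  funext r; simp [io, st]

@[simp] theorem st_zero (x y z : List Bool) : st x y z 0 = x := rfl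
@[simp] theorem st_one (x y z : List Bool) : st x y z 1 = y := rfl
@[simp] theorem st_two (x y z : List Bool) : st x y z 2 = z := rfl

@[simp] theorem update_st_zero (x y z v : List Bool) : update (st x y z) 0 v = st v y z := by
  funext r; by_cases h : r = 0 <;> simp [st, h]

@[simp] theorem update_st_one (x y z v : List Bool) : update (st x y z) 1 v = st x v z := by
  funext r; by_cases h : r = 1 <;> simp [st, h]

@[simp] theorem update_st_two (x y z v : List Bool) : update (st x y z) 2 v = st x y v := by
  funext r; by_cases h : r = 2 <;> simp [st, h]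

/-- Run `p` with its input and output in register `a` and scratch space above register `2`. -/
def callAt (a : ℕ) (p : Prog) : Prog := p.ren (fun r => if r = 0 then a else r + 2)

theorem Run.callAt {p : Prog} {u v : List Bool} {t : ℕ} (h : Run p (io u) (io v) t) {a : ℕ}
    (ha : a ≤ 2) (x y z : List Bool) (hu : st x y z a = u) :
    Run (callAt a p) (st x y z) (update (st x y z) a v) t := by
  have hinj : Injective (fun r : ℕ => if r = 0 then a else r + 2) := by
    intro i j hij
    simp only at hij
    split_ifs at hij <;> omega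
  obtain ⟨T', h1, h2, h3⟩ := h.ren hinj (st x y z) (by
    intro r
    by_cases hr : r = 0
    · simp [hr, hu, io]
    · simp [hr, io, st])
  refine h1.cast ?_ le_rfl
  funext r
  by_cases hr : r = a
  · subst hr
    have := h2 0
    simpa [io] using this
  · rw [update_of_ne hr]
    by_cases hr2 : r ≤ 2
    · apply h3
      intro i
      split_ifs <;> omega
    · have := h2 (r - 2)
      have e1 : r - 2 ≠ 0 := by omega
      have e2 : r - 2 + 2 = r := by omega
      simp only [e1, if_false, e2, io] at this
      rw [this]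
      have : r ≠ 0 ∧ r ≠ 1 ∧ r ≠ 2 := by omega
      simp [st, this]

/-- Push a word on a register. -/
def pushs (r : ℕ) : List Bool → Prog
  | [] => .skip
  | b :: w => .seq (pushs r w) (.push r b)

theorem run_pushs (r : ℕ) (w : List Bool) (S : St) :
    Run (pushs r w) S (update S r (w ++ S r)) w.length := by
  induction w with
  | nil => simpa [pushs] using Run.skip S
  | cons b w ih =>
    refine (Run.seq ih (Run.push r b _)).cast ?_ (by simp)
    simp

/-- Empty register `a`, pushing for each bit a word on `r1` and a word on `r2`. -/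
def tr (a r1 r2 : ℕ) (w1 w2 : Bool → List Bool) : Prog :=
  .loop a (.ite a .skip
    (.seq (.pop a) (.seq (pushs r1 (w1 false)) (pushs r2 (w2 false))))
    (.seq (.pop a) (.seq (pushs r1 (w1 true)) (pushs r2 (w2 true)))))

theorem run_tr {a r1 r2 : ℕ} (h1 : a ≠ r1) (h2 : a ≠ r2) (h3 : r1 ≠ r2)
    (w1 w2 : Bool → List Bool) (hw : ∀ b, (w1 b).length + (w2 b).length ≤ 3) (l : List Bool) :
    ∀ S : St, S a = l → Run (tr a r1 r2 w1 w2) S
      (update (update (update S a []) r1 (l.reverse.flatMap w1 ++ S r1)) r2
        (l.reverse.flatMap w2 ++ S r2)) (4 * l.length + 1) := by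
  induction l with
  | nil =>
    intro S hS
    refine (Run.loopE hS).cast ?_ (by simp)
    have : update S a [] = S := by rw [← hS]; simp
    simp [this]
  | cons b l ih =>
    intro S hS
    have hb : Run (.seq (.pop a) (.seq (pushs r1 (w1 b)) (pushs r2 (w2 b)))) S _ _ :=
      Run.seq (Run.pop a S) (Run.seq (run_pushs r1 _ _) (run_pushs r2 _ _))
    have hb'' : ∀ S' t, Run (.seq (.pop a) (.seq (pushs r1 (w1 b)) (pushs r2 (w2 b)))) S S' t →
        Run (.ite a .skip
        (.seq (.pop a) (.seq (pushs r1 (w1 false)) (pushs r2 (w2 false))))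
        (.seq (.pop a) (.seq (pushs r1 (w1 true)) (pushs r2 (w2 true))))) S S' t := by
      intro S' t hb
      cases b
      · exact Run.iteF hS hb
      · exact Run.iteT hS hb
    have hb' := hb'' _ _ hb
    refine (Run.loopS (by simp [hS]) hb' (ih _ ?_)).cast ?_ ?_
    · simp [update_of_ne h1, update_of_ne h2, hS]
    · funext r
      by_cases e2 : r = r2
      · subst e2
        simp [update_of_ne h3.symm, update_of_ne h2.symm]
      · by_cases e1 : r = r1
        · subst e1
          simp [update_of_ne h3, update_of_ne h1.symm]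
        · by_cases e0 : r = a
          · subst e0
            simp [update_of_ne h1, update_of_ne h2]
          · simp [update_of_ne e0, update_of_ne e1, update_of_ne e2]
    · have := hw b
      simp only [List.length_cons]
      omega

/-- First component of a delimited string. -/
def fstR : List Bool → List Bool
  | true :: b :: l => b :: fstR l
  | _ => []

/-- What follows the first delimited block. -/
def sndR : List Bool → List Bool
  | true :: _ :: l => sndR l
  | false :: l => l
  | _ => []

@[simp] theorem fstR_delimit (x y : List Bool) : fstR (delimit x ++ y) = x := by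
  induction x with
  | nil => simp [delimit, fstR]
  | cons b x ih => simp [delimit, fstR, ih]

@[simp] theorem sndR_delimit (x y : List Bool) : sndR (delimit x ++ y) = y := by
  induction x with
  | nil => simp [delimit, sndR]
  | cons b x ih => simp [delimit, sndR, ih]

theorem length_fstR_le (x : List Bool) : (fstR x).length ≤ x.length := by
  fun_induction fstR x <;> simp_all; omega

theorem length_sndR_le (x : List Bool) : (sndR x).length ≤ x.length := by
  fun_induction sndR x <;> simp_all; omega

/-- The loop that splits off the first delimited block. -/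
def splitLoop : Prog :=
  .loop 2 (.ite 0 (.pop 2) (.seq (.pop 0) (.pop 2))
    (.seq (.pop 0) (.ite 0 (.pop 2) (.seq (.pop 0) (.push 1 false))
      (.seq (.pop 0) (.push 1 true)))))

theorem run_splitLoop (x : List Bool) : ∀ y : List Bool,
    Run splitLoop (st x y [true]) (st (sndR x) ((fstR x).reverse ++ y) []) (x.length + 2) := by
  fun_induction sndR x with
  | case1 b l ih =>
    intro y
    have hb : Run (.ite 0 (.pop 2) (.seq (.pop 0) (.pop 2))
      (.seq (.pop 0) (.ite 0 (.pop 2) (.seq (.pop 0) (.push 1 false))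
        (.seq (.pop 0) (.push 1 true))))) (st (true :: b :: l) y [true]) (st l (b :: y) [true]) 1 := by
      refine Run.iteT (l := b :: l) rfl ?_
      cases b
      · refine (Run.seq (Run.pop _ _) (Run.iteF (l := l) (by simp)
          (Run.seq (Run.pop _ _) (Run.push _ _ _)))).cast (by simp) (by simp)
      · refine (Run.seq (Run.pop _ _) (Run.iteT (l := l) (by simp)
          (Run.seq (Run.pop _ _) (Run.push _ _ _)))).cast (by simp) (by simp)
    refine (Run.loopS (by simp) hb (ih _)).cast (by simp [fstR]) (by simp; omega)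
  | case2 l =>
    intro y
    refine (Run.loopS (by simp) (Run.iteF (l := l) rfl (Run.seq (Run.pop _ _) (Run.pop _ _)))
      (Run.loopE (by simp))).cast (by simp [fstR]) (by simp)
  | case3 x h1 h2 =>
    intro y
    match x, h1, h2 with
    | [], _, _ =>
      refine (Run.loopS (by simp) (Run.iteE rfl (Run.pop _ _))
        (Run.loopE (by simp))).cast (by simp [fstR]) (by simp)
    | [true], _, _ =>
      refine (Run.loopS (by simp) (Run.iteT (l := []) rfl (Run.seq (Run.pop _ _)
        (Run.iteE (by simp) (Run.pop _ _))))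
        (Run.loopE (by simp))).cast (by simp [fstR]) (by simp)
    | false :: l, _, h2 => exact absurd rfl (h2 l)
    | true :: b :: l, h1, _ => exact absurd rfl (h1 b l)

/-- Split off the first delimited block, reversed, into register `1`. -/
def split : Prog := .seq (.push 2 true) splitLoop

theorem run_split (x : List Bool) :
    Run split (st x [] []) (st (sndR x) (fstR x).reverse []) (x.length + 3) := by
  have h := run_splitLoop x []
  refine (Run.seq ((Run.push 2 true _).cast (by simp) le_rfl) h).cast (by simp) (by omega)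

/-- Move register `a` reversed on top of register `b`. -/
def mv (a b c : ℕ) : Prog := tr a b c (fun x => [x]) (fun _ => [])

/-- Empty register `a`. -/
def clr (a b c : ℕ) : Prog := tr a b c (fun _ => []) (fun _ => [])

theorem flatMap_nil' (l : List Bool) : l.flatMap (fun _ => ([] : List Bool)) = [] := by simp

theorem run_mv10 (x y z : List Bool) :
    Run (mv 1 0 2) (st x y z) (st (y.reverse ++ x) [] z) (4 * y.length + 1) :=
  (run_tr (by decide) (by decide) (by decide) _ _ (by simp) y _ rfl).cast
    (by simp [flatMap_nil']) le_rfl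

theorem run_mv01 (x y z : List Bool) :
    Run (mv 0 1 2) (st x y z) (st [] (x.reverse ++ y) z) (4 * x.length + 1) :=
  (run_tr (by decide) (by decide) (by decide) _ _ (by simp) x _ rfl).cast
    (by simp [flatMap_nil']) le_rfl

theorem run_mv21 (x y z : List Bool) :
    Run (mv 2 1 0) (st x y z) (st x (z.reverse ++ y) []) (4 * z.length + 1) :=
  (run_tr (by decide) (by decide) (by decide) _ _ (by simp) z _ rfl).cast
    (by simp [flatMap_nil']) le_rfl

theorem run_clr0 (x y z : List Bool) :
    Run (clr 0 1 2) (st x y z) (st [] y z) (4 * x.length + 1) :=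
  (run_tr (by decide) (by decide) (by decide) _ _ (by simp) x _ rfl).cast
    (by simp [flatMap_nil']) le_rfl

theorem run_clr1 (x y z : List Bool) :
    Run (clr 1 0 2) (st x y z) (st x [] z) (4 * y.length + 1) :=
  (run_tr (by decide) (by decide) (by decide) _ _ (by simp) y _ rfl).cast
    (by simp [flatMap_nil']) le_rfl

/-! ### Polynomial bounds -/

/-- `g a` is bounded by a polynomial in the length of `ea a`. -/
def PBe {α : Type} (ea : α → List Bool) (g : α → ℕ) : Prop :=
  ∃ q : Polynomial ℕ, ∀ a, g a ≤ q.eval (ea a).length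

theorem eval_mono (q : Polynomial ℕ) {m n : ℕ} (h : m ≤ n) : q.eval m ≤ q.eval n := by
  induction q using Polynomial.induction_on' with
  | add p q hp hq => simp only [Polynomial.eval_add]; omega
  | monomial k a =>
    simp only [Polynomial.eval_monomial]
    exact Nat.mul_le_mul_left _ (Nat.pow_le_pow_left h k)

namespace PBe

variable {α β : Type} {ea : α → List Bool}

theorem const (c : ℕ) : PBe ea (fun _ => c) := ⟨Polynomial.C c, by simp⟩

theorem len : PBe ea (fun a => (ea a).length) := ⟨Polynomial.X, by simp⟩

theorem mono {f g : α → ℕ} (h : PBe ea g) (hle : ∀ a, f a ≤ g a) : PBe ea f :=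
  let ⟨q, hq⟩ := h; ⟨q, fun a => (hle a).trans (hq a)⟩

theorem add {f g : α → ℕ} (hf : PBe ea f) (hg : PBe ea g) : PBe ea (fun a => f a + g a) :=
  let ⟨p, hp⟩ := hf; let ⟨q, hq⟩ := hg
  ⟨p + q, fun a => by simpa using Nat.add_le_add (hp a) (hq a)⟩

theorem mul {f g : α → ℕ} (hf : PBe ea f) (hg : PBe ea g) : PBe ea (fun a => f a * g a) :=
  let ⟨p, hp⟩ := hf; let ⟨q, hq⟩ := hg
  ⟨p * q, fun a => by simpa using Nat.mul_le_mul (hp a) (hq a)⟩

theorem eval {f : α → ℕ} (hf : PBe ea f) (q : Polynomial ℕ) : PBe ea (fun a => q.eval (f a)) :=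
  let ⟨p, hp⟩ := hf
  ⟨q.comp p, fun a => by simpa [Polynomial.eval_comp] using eval_mono q (hp a)⟩

theorem comp {eb : β → List Bool} {g : β → ℕ} (hg : PBe eb g) {f : α → β}
    (hf : PBe ea (fun a => (eb (f a)).length)) : PBe ea (fun a => g (f a)) :=
  let ⟨q, hq⟩ := hg
  (hf.eval q).mono fun a => hq (f a)

end PBe

namespace RP

variable {α β : Type} {ea : α → List Bool}

theorem intro {F : α → List Bool} (p : Prog) {g : α → ℕ} (hg : PBe ea g)
    (h : ∀ a, Run p (st (ea a) [] []) (st (F a) [] []) (g a)) : RP ea F := by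
  obtain ⟨q, hq⟩ := hg
  exact ⟨p, q, fun a => by rw [io_eq, io_eq]; exact (h a).mono (hq a)⟩

theorem elim {F : α → List Bool} (h : RP ea F) :
    ∃ (p : Prog) (g : α → ℕ), PBe ea g ∧ ∀ a, Run p (io (ea a)) (io (F a)) (g a) :=
  let ⟨p, q, h⟩ := h; ⟨p, _, ⟨q, fun _ => le_rfl⟩, h⟩

theorem length {F : α → List Bool} (h : RP ea F) : PBe ea (fun a => (F a).length) := by
  obtain ⟨p, g, hg, h⟩ := h.elim
  refine (PBe.len.add hg).mono fun a => ?_
  simpa [io] using (h a).length_le 0

theorem refl : RP ea ea := intro .skip (PBe.const 0) fun _ => Run.skip _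

theorem congr {F G : α → List Bool} (h : RP ea F) (e : ∀ a, F a = G a) : RP ea G := by
  have : F = G := funext e
  exact this ▸ h

/-- Composition. -/
theorem comp {eb : β → List Bool} {G : β → List Bool} (hG : RP eb G) {f : α → β}
    (hf : RP ea (fun a => eb (f a))) : RP ea (fun a => G (f a)) := by
  have hl := hf.length
  obtain ⟨p, g, hg, h⟩ := hf.elim
  obtain ⟨p', g', hg', h'⟩ := hG.elim
  refine intro (.seq p p') (hg.add (hg'.comp hl)) fun a => ?_
  rw [← io_eq, ← io_eq]
  exact Run.seq (h a) (h' (f a))

/-- Post-composition with a function on raw strings. -/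
theorem post {G : List Bool → List Bool} (hG : RP id G) {F : α → List Bool} (hF : RP ea F) :
    RP ea (fun a => G (F a)) := comp (eb := id) hG hF

theorem delimit_eq (x y : List Bool) :
    x.flatMap (fun b => [true, b]) ++ false :: y = delimit x ++ y := by
  induction x with
  | nil => rfl
  | cons b x ih => simp [delimit, ← ih]

/-- Pairing. -/
theorem pair {F G : α → List Bool} (hF : RP ea F) (hG : RP ea G) :
    RP ea (fun a => delimit (F a) ++ G a) := by
  have hl := hF.length
  obtain ⟨p, g, hg, h⟩ := hF.elim
  obtain ⟨p', g', hg', h'⟩ := hG.elim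
  refine intro (.seq (mv 0 1 2) (.seq (tr 1 0 2 (fun x => [x]) (fun x => [x]))
    (.seq (callAt 2 p) (.seq (callAt 0 p') (.seq (mv 2 1 0) (.seq (.push 0 false)
      (tr 1 0 2 (fun b => [true, b]) (fun _ => []))))))))
    (g := fun a => 8 * (ea a).length + g a + g' a + 8 * (F a).length + 5)
    ((((((PBe.const 8).mul PBe.len).add hg).add hg').add ((PBe.const 8).mul hl)).add
      (PBe.const 5)) fun a => ?_
  have s2 : Run (tr 1 0 2 (fun x => [x]) (fun x => [x])) (st [] ((ea a).reverse ++ []) [])
      (st (ea a) [] (ea a)) (4 * (ea a).length + 1) :=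
    (run_tr (by decide) (by decide) (by decide) _ _ (by simp) _ _ rfl).cast (by simp) (by simp)
  have s3 : Run (callAt 2 p) (st (ea a) [] (ea a)) (st (ea a) [] (F a)) (g a) :=
    ((h a).callAt le_rfl _ _ _ rfl).cast (by simp) le_rfl
  have s4 : Run (callAt 0 p') (st (ea a) [] (F a)) (st (G a) [] (F a)) (g' a) :=
    ((h' a).callAt (by omega) _ _ _ rfl).cast (by simp) le_rfl
  have s6 : Run (.push 0 false) (st (G a) ((F a).reverse ++ []) [])
      (st (false :: G a) (F a).reverse []) 1 := (Run.push _ _ _).cast (by simp) le_rfl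
  have s7 : Run (tr 1 0 2 (fun b => [true, b]) (fun _ => [])) (st (false :: G a) (F a).reverse [])
      (st (delimit (F a) ++ G a) [] []) (4 * (F a).length + 1) :=
    (run_tr (by decide) (by decide) (by decide) _ _ (by simp) _ _ rfl).cast
      (by simp [flatMap_nil', delimit_eq]) (by simp)
  exact (Run.seq (run_mv01 _ _ _) (Run.seq s2 (Run.seq s3 (Run.seq s4 (Run.seq (run_mv21 _ _ _)
    (Run.seq s6 s7)))))).mono (by omega)

theorem run_fst (x : List Bool) : Run (.seq split (.seq (clr 0 1 2) (mv 1 0 2))) (st x [] [])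
    (st (fstR x) [] []) (9 * x.length + 5) := by
  have h1 := length_fstR_le x
  have h2 := length_sndR_le x
  exact (Run.seq (run_split x) (Run.seq (run_clr0 _ _ _) (run_mv10 _ _ _))).cast (by simp)
    (by simp; omega)

theorem run_snd (x : List Bool) : Run (.seq split (clr 1 0 2)) (st x [] [])
    (st (sndR x) [] []) (9 * x.length + 5) := by
  have h1 := length_fstR_le x
  exact (Run.seq (run_split x) (run_clr1 _ _ _)).cast (by simp) (by simp; omega)

theorem lin (a b : ℕ) : PBe ea (fun x => a * (ea x).length + b) :=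
  ((PBe.const a).mul PBe.len).add (PBe.const b)

theorem fstR : RP id fstR := intro _ (lin 9 5) run_fst

theorem sndR : RP id sndR := intro _ (lin 9 5) run_snd

theorem const (w : List Bool) : RP ea (fun _ => w) :=
  intro (.seq (clr 0 1 2) (pushs 0 w)) (lin 4 (1 + w.length)) fun a =>
    (Run.seq (run_clr0 _ _ _) (run_pushs 0 w _)).cast (by simp) (by omega)

/-- Emptiness test on raw strings. -/
theorem isEmpty : RP id (fun x : List Bool => [x.isEmpty]) := by
  refine intro (.ite 0 (.push 0 true) (.seq (clr 0 1 2) (.push 0 false))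
    (.seq (clr 0 1 2) (.push 0 false))) (lin 4 2) fun x => ?_
  have h := (Run.seq (run_clr0 x [] []) (Run.push 0 false _))
  match x with
  | [] => exact (Run.iteE rfl (Run.push _ _ _)).cast (by simp) (by simp)
  | false :: l => exact (Run.iteF (l := l) rfl h).cast (by simp) (by simp)
  | true :: l => exact (Run.iteT (l := l) rfl h).cast (by simp) (by simp)

/-- Selection between two raw strings. -/
theorem sel : RP (fun p : Bool × List Bool × List Bool => delimit [p.1] ++ (delimit p.2.1 ++ p.2.2))
    (fun p => cond p.1 p.2.1 p.2.2) := by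
  refine intro (.seq (.pop 0) (.ite 0 .skip
    (.seq (.pop 0) (.seq (.pop 0) (.seq split (clr 1 0 2))))
    (.seq (.pop 0) (.seq (.pop 0) (.seq split (.seq (clr 0 1 2) (mv 1 0 2))))))) (lin 9 5) ?_
  rintro ⟨b, x, y⟩
  have hp : ∀ (c : Bool) (w : List Bool), Run (.pop 0) (st (c :: w) [] []) (st w [] []) 0 :=
    fun c w => (Run.pop _ _).cast (by simp) le_rfl
  cases b
  · exact (Run.seq (hp _ _) (Run.iteF rfl (Run.seq (hp _ _) (Run.seq (hp _ _)
      (run_snd (delimit x ++ y)))))).cast (by simp) (by simp)
  · exact (Run.seq (hp _ _) (Run.iteT rfl (Run.seq (hp _ _) (Run.seq (hp _ _)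
      (run_fst (delimit x ++ y)))))).cast (by simp) (by simp)

/-- From a raw string to its encoding as a list of booleans. -/
theorem toBits : RP id (fun x : List Bool => x.flatMap (fun b => [true, b, false])) := by
  refine intro (.seq (mv 0 1 2) (tr 1 0 2 (fun b => [true, b, false]) (fun _ => []))) (lin 8 2)
    fun x => ?_
  exact (Run.seq (run_mv01 x [] []) (run_tr (by decide) (by decide) (by decide) _ _ (by simp) _ _
    rfl)).cast (by simp [flatMap_nil']) (by simp; omega)

theorem run_ofBits (x : List Bool) : ∀ y : List Bool,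
    Run (.loop 0 (.seq (.pop 0) (.seq (.ite 0 .skip (.push 1 false) (.push 1 true))
      (.seq (.pop 0) (.pop 0))))) (st (x.flatMap (fun b => [true, b, false])) y [])
      (st [] (x.reverse ++ y) []) (2 * x.length + 1) := by
  induction x with
  | nil => intro y; exact (Run.loopE rfl).cast (by simp) (by simp)
  | cons b x ih =>
    intro y
    have hp : ∀ (c : Bool) (w u : List Bool), Run (.pop 0) (st (c :: w) u []) (st w u []) 0 :=
      fun c w u => (Run.pop _ _).cast (by simp) le_rfl
    have hi : ∀ w : List Bool, Run (.ite 0 .skip (.push 1 false) (.push 1 true))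
        (st (b :: w) y []) (st (b :: w) (b :: y) []) 1 := by
      intro w
      cases b
      · exact (Run.iteF rfl (Run.push _ _ _)).cast (by simp) le_rfl
      · exact (Run.iteT rfl (Run.push _ _ _)).cast (by simp) le_rfl
    exact (Run.loopS (by simp) (Run.seq (hp _ _ _) (Run.seq (hi _) (Run.seq (hp _ _ _) (hp _ _ _))))
      (ih (b :: y))).cast (by simp) (by simp; omega)

/-- From the encoding of a list of booleans to the raw string. -/
theorem ofBits : RP (fun x : List Bool => x.flatMap (fun b => [true, b, false])) id := by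
  refine intro _ (lin 6 2) fun x => (Run.seq (run_ofBits x []) (run_mv10 _ _ _)).cast
    (by simp) ?_
  have : (x.flatMap (fun b => [true, b, false])).length = 3 * x.length := by
    induction x with
    | nil => rfl
    | cons b x ih => simp only [List.flatMap_cons, List.length_append, ih, List.length_cons,
        List.length_nil]; omega
  simp only [this, List.length_append, List.length_reverse, List.length_nil]
  omega

theorem run_iter {σ : Type} {es : σ → List Bool} {f : σ → σ} {p : Prog} {q : Polynomial ℕ}
    (h : ∀ s, Run p (io (es s)) (io (es (f s))) (q.eval (es s).length)) (B : ℕ) (c : List Bool) :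
    ∀ s : σ, (∀ i ≤ c.length, (es (f^[i] s)).length ≤ B) →
    Run (.loop 1 (.seq (.pop 1) (callAt 0 p))) (st (es s) c []) (st (es (f^[c.length] s)) [] [])
      (c.length * (q.eval B + 1) + 1) := by
  induction c with
  | nil => intro s _; exact (Run.loopE rfl).cast (by simp) (by simp)
  | cons b c ih =>
    intro s hs
    have h1 : Run (.pop 1) (st (es s) (b :: c) []) (st (es s) c []) 0 :=
      (Run.pop _ _).cast (by simp) le_rfl
    have h2 : Run (callAt 0 p) (st (es s) c []) (st (es (f s)) c []) (q.eval B) :=
      ((h s).callAt (by omega) _ _ _ rfl).cast (by simp) (eval_mono q (hs 0 (by omega)))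
    refine (Run.loopS (by simp) (Run.seq h1 h2) (ih (f s) fun i hi => ?_)).cast (by simp) ?_
    · exact hs (i + 1) (by simpa using hi)
    · simp only [List.length_cons]; ring_nf; omega

/-- Iteration, the number of rounds being the length of a raw string. -/
theorem iter {σ : Type} {es : σ → List Bool} {f : σ → σ} (hf : RP es (fun s => es (f s)))
    {C : α → List Bool} (hC : RP ea C) {s0 : α → σ} (hs : RP ea (fun a => es (s0 a)))
    {B : α → ℕ} (hB : PBe ea B)
    (hb : ∀ a, ∀ i ≤ (C a).length, (es (f^[i] (s0 a))).length ≤ B a) :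
    RP ea (fun a => es (f^[(C a).length] (s0 a))) := by
  have hP := hC.pair hs
  have hl := hP.length
  have hlC := hC.length
  obtain ⟨p0, g0, hg0, h0⟩ := hP.elim
  obtain ⟨p, q, h⟩ := hf
  refine intro (.seq p0 (.seq split (.loop 1 (.seq (.pop 1) (callAt 0 p)))))
    (hg0.add ((hl.add (PBe.const 3)).add
      ((hlC.mul ((hB.eval q).add (PBe.const 1))).add (PBe.const 1)))) fun a => ?_
  have s1 := h0 a
  rw [io_eq, io_eq] at s1
  have s2 := run_split (delimit (C a) ++ es (s0 a))
  rw [fstR_delimit, sndR_delimit] at s2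
  have s3 := run_iter h (B a) (C a).reverse (s0 a) (by simpa using hb a)
  rw [List.length_reverse] at s3
  exact Run.seq s1 (Run.seq s2 s3)

end RP

end Pool.Agent.Shared.PolyTime
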